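import Pool.Agent.MP_954c34_an.Defs

open Set Filter Topology
open scoped ComplexConjugate Matrix

noncomputable section

namespace Pool.Agent.MP_954c34_an

variable {n : ℕ}

/-- Kronecker delta. -/
def kron (i j : Fin n) : ℝ := if i = j then 1 else 0

lemma kron_comm (i j : Fin n) : kron i j = kron j i := by
  simp [kron, eq_comm]

lemma abs_kron_le (i j : Fin n) : |kron i j| ≤ 1 := by
  unfold kron
  split_ifs <;> simp

lemma sum_kron_mul (i : Fin n) (f : Fin n → ℝ) : ∑ j, kron i j * f j = f i := by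
  simp [kron]

/-- The symmetric correction sending `e + p` to `q e - p`. -/
def corr (i₀ : Fin n) (z : (Fin n → ℝ) × ℝ) (i j : Fin n) : ℝ :=
  ((z.2 * kron i₀ i - z.1 i) * kron i₀ j + kron i₀ i * (z.2 * kron i₀ j - z.1 j)) / (1 + z.1 i₀) -
    kron i₀ i * kron i₀ j * (∑ k, (z.2 * kron i₀ k - z.1 k) * (kron i₀ k + z.1 k)) /
      (1 + z.1 i₀) ^ 2

lemma corr_symm (i₀ : Fin n) (z : (Fin n → ℝ) × ℝ) (i j : Fin n) :
    corr i₀ z i j = corr i₀ z j i := by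
  unfold corr
  ring

lemma corr_zero (i₀ : Fin n) : corr i₀ 0 = 0 := by
  funext i j
  simp [corr]

lemma sum_corr_mul (i₀ : Fin n) (z : (Fin n → ℝ) × ℝ) (hz : 1 + z.1 i₀ ≠ 0) (i : Fin n) :
    ∑ j, corr i₀ z i j * (kron i₀ j + z.1 j) = z.2 * kron i₀ i - z.1 i := by
  set S := ∑ k, (z.2 * kron i₀ k - z.1 k) * (kron i₀ k + z.1 k) with hS
  have h1 : ∑ j, kron i₀ j * (kron i₀ j + z.1 j) = 1 + z.1 i₀ := by
    rw [sum_kron_mul]
    simp [kron]
  have h2 : ∀ j, corr i₀ z i j * (kron i₀ j + z.1 j) =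
      ((z.2 * kron i₀ i - z.1 i) / (1 + z.1 i₀) - kron i₀ i * S / (1 + z.1 i₀) ^ 2) *
        (kron i₀ j * (kron i₀ j + z.1 j)) +
      (kron i₀ i / (1 + z.1 i₀)) * ((z.2 * kron i₀ j - z.1 j) * (kron i₀ j + z.1 j)) := by
    intro j
    unfold corr
    rw [← hS]
    ring
  simp only [h2, Finset.sum_add_distrib, ← Finset.mul_sum, h1, ← hS]
  field_simp
  ring

lemma contDiffAt_corr (i₀ : Fin n) : ContDiffAt ℝ 1 (corr i₀) 0 := by
  refine contDiffAt_pi.2 fun i => contDiffAt_pi.2 fun j => ?_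
  unfold corr
  refine ContDiffAt.sub (ContDiffAt.div (by fun_prop) (by fun_prop) (by simp))
    (ContDiffAt.div (by fun_prop) (by fun_prop) (by simp))

lemma exists_corr_lipschitz (i₀ : Fin n) : ∃ δ L : ℝ, 0 < δ ∧ δ < 1 ∧ 0 ≤ L ∧
    n * (L * δ) ≤ 1 / 2 ∧ ∀ z z' : (Fin n → ℝ) × ℝ, ‖z‖ ≤ δ → ‖z'‖ ≤ δ →
      ‖corr i₀ z - corr i₀ z'‖ ≤ L * ‖z - z'‖ := by
  obtain ⟨K, t, ht, hK⟩ := (contDiffAt_corr i₀).exists_lipschitzOnWith
  obtain ⟨ε, hε, hball⟩ := Metric.nhds_basis_closedBall.mem_iff.1 ht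
  set δ := min (min ε (1 / 2)) (1 / (2 * (n * K + 1))) with hδ
  have h1 : δ ≤ ε := (min_le_left _ _).trans (min_le_left _ _)
  have h2 : δ ≤ 1 / 2 := (min_le_left _ _).trans (min_le_right _ _)
  have h3 : δ ≤ 1 / (2 * (n * K + 1)) := min_le_right _ _
  have h0 : 0 < δ := lt_min (lt_min hε (by norm_num)) (by positivity)
  refine ⟨δ, K, h0, by linarith, K.2, ?_, fun z z' hz hz' => ?_⟩
  · rw [le_div_iff₀ (by positivity)] at h3
    nlinarith
  · have := hK.dist_le_mul z (hball (by simpa using hz.trans h1)) z'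
      (hball (by simpa using hz'.trans h1))
    simpa only [dist_eq_norm] using this

lemma isElliptic_of_small {S : Fin n → Fin n → ℝ} {η : ℝ} (hS : ∀ i j, |S i j| ≤ η)
    (hη : n * η ≤ 1 / 2) :
    IsElliptic (1 / 2) 2 (Matrix.of fun i j => ((kron i j + S i j : ℝ) : ℂ)) := by
  intro ξ
  set s : Fin n → ℂ := fun i => ∑ j, (S i j : ℂ) * ξ j with hs
  set N : ℝ := ∑ i, ‖ξ i‖ ^ 2 with hN
  have hN0 : 0 ≤ N := Finset.sum_nonneg fun i _ => sq_nonneg _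
  have hmul : ∀ i, ((Matrix.of fun i j => ((kron i j + S i j : ℝ) : ℂ)) *ᵥ ξ) i = ξ i + s i := by
    intro i
    simp [Matrix.mulVec, dotProduct, add_mul, Finset.sum_add_distrib, hs, kron, apply_ite]
  have hsi : ∀ i, ‖s i‖ ^ 2 ≤ η ^ 2 * (n * N) := by
    intro i
    have hη0 : 0 ≤ η := (abs_nonneg _).trans (hS i i)
    have h1 : ‖s i‖ ≤ η * ∑ j, ‖ξ j‖ := by
      rw [Finset.mul_sum]
      refine (norm_sum_le _ _).trans (Finset.sum_le_sum fun j _ => ?_)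
      rw [norm_mul, Complex.norm_real, Real.norm_eq_abs]
      exact mul_le_mul_of_nonneg_right (hS i j) (norm_nonneg _)
    have h2 : (∑ j, ‖ξ j‖) ^ 2 ≤ n * N := by
      simpa using sq_sum_le_card_mul_sum_sq (s := Finset.univ) (f := fun j => ‖ξ j‖)
    calc ‖s i‖ ^ 2 ≤ (η * ∑ j, ‖ξ j‖) ^ 2 := by gcongr
      _ = η ^ 2 * (∑ j, ‖ξ j‖) ^ 2 := by ring
      _ ≤ η ^ 2 * (n * N) := by gcongr
  have hsum : ∑ i, ‖s i‖ ^ 2 ≤ N / 4 := by
    rcases Nat.eq_zero_or_pos n with rfl | hn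
    · simp [hN]
    · have hη0 : 0 ≤ η := (abs_nonneg _).trans (hS ⟨0, hn⟩ ⟨0, hn⟩)
      calc ∑ i, ‖s i‖ ^ 2 ≤ ∑ _i : Fin n, η ^ 2 * (n * N) := Finset.sum_le_sum fun i _ => hsi i
        _ = (n * η) ^ 2 * N := by simp; ring
        _ ≤ (1 / 2) ^ 2 * N := by gcongr
        _ = N / 4 := by ring
  simp only [hmul]
  constructor
  · calc ∑ i, ‖ξ i + s i‖ ^ 2 ≤ ∑ i, (2 * ‖ξ i‖ ^ 2 + 2 * ‖s i‖ ^ 2) := by
          refine Finset.sum_le_sum fun i _ => ?_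
          calc ‖ξ i + s i‖ ^ 2 ≤ (‖ξ i‖ + ‖s i‖) ^ 2 := by gcongr; exact norm_add_le _ _
            _ ≤ _ := by nlinarith [sq_nonneg (‖ξ i‖ - ‖s i‖)]
      _ = 2 * N + 2 * ∑ i, ‖s i‖ ^ 2 := by
          rw [Finset.sum_add_distrib, ← Finset.mul_sum, ← Finset.mul_sum]
      _ ≤ 2 ^ 2 * N := by linarith
  · rw [Complex.re_sum]
    calc 1 / 2 * N ≤ 3 / 4 * N - ∑ i, ‖s i‖ ^ 2 := by linarith
      _ = ∑ i, (3 / 4 * ‖ξ i‖ ^ 2 - ‖s i‖ ^ 2) := by
          rw [Finset.sum_sub_distrib, ← Finset.mul_sum]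
      _ ≤ _ := by
          refine Finset.sum_le_sum fun i _ => ?_
          rw [add_mul, Complex.add_re, Complex.mul_conj, Complex.normSq_eq_norm_sq]
          have h1 := Complex.abs_re_le_norm (s i * conj (ξ i))
          rw [norm_mul, Complex.norm_conj] at h1
          have h2 := neg_abs_le (s i * conj (ξ i)).re
          rw [Complex.ofReal_re]
          nlinarith [sq_nonneg (‖ξ i‖ / 2 - ‖s i‖)]

end Pool.Agent.MP_954c34_an
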