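import Pool.Agent.MP_954c34_an.Defs

open MeasureTheory Set
open scoped ContDiff ComplexConjugate Matrix

noncomputable section

namespace Pool.Agent.MP_954c34_an

variable {E : Type} [NormedAddCommGroup E] [InnerProductSpace ℝ E] [FiniteDimensional ℝ E]
  [MeasurableSpace E] [BorelSpace E] {n : ℕ}

set_option linter.unusedSectionVars false

/-- `H = L²(Ω; ℂ)`. -/
abbrev L2 (μ : Measure E) (Ω : Set E) : Type := Lp ℂ 2 (μ.restrict Ω)

/-- `L²(Ω)^{1+n}` with the Hilbert norm: `w none` is a function `u`, `w (some i)` is its `i`-th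
derivative, so that `‖w‖` is the `H¹(Ω)` norm of `u`. -/
abbrev Jet (n : ℕ) (μ : Measure E) (Ω : Set E) : Type := PiLp 2 (fun _ : Option (Fin n) => L2 μ Ω)

/-- The pairs `(φ|_Ω, ∇φ|_Ω)` with `φ ∈ C_c^∞(ℝⁿ \ D)`. -/
def testJets (μ : Measure E) (b : OrthonormalBasis (Fin n) ℝ E) (Ω D : Set E) : Set (Jet n μ Ω) :=
  {w | ∃ φ : E → ℂ, ContDiff ℝ ∞ φ ∧ HasCompactSupport φ ∧ tsupport φ ⊆ Dᶜ ∧
    (w none : E → ℂ) =ᵐ[μ.restrict Ω] φ ∧
    ∀ i, (w (some i) : E → ℂ) =ᵐ[μ.restrict Ω] coordDeriv b i φ}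

/-- `V`: the `H¹(Ω)`-closure of the test functions, `u` being identified with `(u, ∇u)`. -/
def formDomain (μ : Measure E) (b : OrthonormalBasis (Fin n) ℝ E) (Ω D : Set E) : Submodule ℂ (Jet n μ Ω) :=
  (Submodule.span ℂ (testJets μ b Ω D)).topologicalClosure

/-- `V*`: the continuous antilinear functionals on `V`. -/
abbrev Antidual (μ : Measure E) (b : OrthonormalBasis (Fin n) ℝ E) (Ω D : Set E) : Type := formDomain μ b Ω D →L⋆[ℂ] ℂ

/-- The embedding `V ↪ H`. -/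
def toH (μ : Measure E) (b : OrthonormalBasis (Fin n) ℝ E) (Ω D : Set E) : formDomain μ b Ω D →L[ℂ] L2 μ Ω :=
  (PiLp.proj 2 (fun _ : Option (Fin n) => L2 μ Ω) none).comp (formDomain μ b Ω D).subtypeL

/-- The form `𝔞(u, v) = ∫_Ω M(x) ∇u ⬝ conj ∇v dx` with coefficient matrix `M`. -/
def form (μ : Measure E) (b : OrthonormalBasis (Fin n) ℝ E) (Ω D : Set E) (M : E → Matrix (Fin n) (Fin n) ℂ)
    (u v : formDomain μ b Ω D) : ℂ :=
  ∫ x in Ω, ∑ i, ∑ j, M x i j * (u : Jet n μ Ω) (some j) x * conj ((v : Jet n μ Ω) (some i) x) ∂μ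

end Pool.Agent.MP_954c34_an
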