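import Mathlib

open MeasureTheory Set
open scoped ContDiff ComplexConjugate Matrix

noncomputable section

namespace Pool.Agent.MP_954c34_an

section Space

variable {E : Type} [NormedAddCommGroup E] [InnerProductSpace ℝ E] [MeasurableSpace E] {n : ℕ}

/-- The derivative `∂ᵢ φ` in the coordinates given by the orthonormal basis `b`. -/
def coordDeriv (b : OrthonormalBasis (Fin n) ℝ E) (i : Fin n) (φ : E → ℂ) (x : E) : ℂ :=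
  fderiv ℝ φ x (b i)

/-- `φ ∈ C_c^∞(ℝⁿ \ D)`. -/
def IsTestFunction (D : Set E) (φ : E → ℂ) : Prop :=
  ContDiff ℝ ∞ φ ∧ HasCompactSupport φ ∧ tsupport φ ⊆ compl D

variable {V : Type} [NormedAddCommGroup V] [NormedSpace ℂ V]

/-- `V`, with `val v = v ∈ L²(Ω)` and `grad i v = ∂ᵢ v ∈ L²(Ω)`, is the closure in `H¹(Ω)` of the
restrictions of the test functions: it carries the `H¹` norm, is complete, contains the test
functions, and they are dense. -/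
structure IsFormDomain (μ : Measure E) (b : OrthonormalBasis (Fin n) ℝ E) (Ω D : Set E)
    (val : V →L[ℂ] Lp ℂ 2 (μ.restrict Ω)) (grad : Fin n → V →L[ℂ] Lp ℂ 2 (μ.restrict Ω)) :
    Prop where
  norm_sq : ∀ v, ‖v‖ ^ 2 = ‖val v‖ ^ 2 + ∑ i, ‖grad i v‖ ^ 2
  complete : CompleteSpace V
  test_mem : ∀ φ, IsTestFunction D φ → ∃ v, val v =ᵐ[μ.restrict Ω] φ ∧
    ∀ i, grad i v =ᵐ[μ.restrict Ω] coordDeriv b i φ
  test_dense : Dense {v | ∃ φ, IsTestFunction D φ ∧ val v =ᵐ[μ.restrict Ω] φ ∧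
    ∀ i, grad i v =ᵐ[μ.restrict Ω] coordDeriv b i φ}

/-- `⟨𝔄(t) u, v⟩ = ∫_Ω A(t, x) ∇u ⬝ conj ∇v dx`. -/
structure IsFormOperator (μ : Measure E) (Ω : Set E)
    (grad : Fin n → V →L[ℂ] Lp ℂ 2 (μ.restrict Ω)) (A : ℝ → E → Matrix (Fin n) (Fin n) ℂ)
    (𝔄 : ℝ → V →L[ℂ] V →L⋆[ℂ] ℂ) : Prop where
  apply_eq : ∀ t u v,
    𝔄 t u v = ∫ x in Ω, ∑ i, ∑ j, A t x i j * grad j u x * conj (grad i v x) ∂μ

/-- `‖𝔄(t) - 𝔄(s)‖_{V → V*} ≤ C |t - s|^{1/2}`. -/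
structure IsHalfHolder (C : ℝ) (𝔄 : ℝ → V →L[ℂ] V →L⋆[ℂ] ℂ) : Prop where
  norm_sub_le : ∀ t s, ‖𝔄 t - 𝔄 s‖ ≤ C * |t - s| ^ (1 / 2 : ℝ)

end Space

/-- `|M| ≤ Λ` and `Re (M ξ ⬝ conj ξ) ≥ λ |ξ|²`. -/
def IsElliptic {n : ℕ} (lam Lam : ℝ) (M : Matrix (Fin n) (Fin n) ℂ) : Prop :=
  ∀ ξ : Fin n → ℂ, ∑ i, ‖(M *ᵥ ξ) i‖ ^ 2 ≤ Lam ^ 2 * ∑ i, ‖ξ i‖ ^ 2 ∧
    lam * ∑ i, ‖ξ i‖ ^ 2 ≤ (∑ i, (M *ᵥ ξ) i * conj (ξ i)).re

section Time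

variable {X : Type} [NormedAddCommGroup X] [NormedSpace ℝ X]

/-- `u ∈ L²(0, T; X)`. -/
def MemL2 (T : ℝ) (u : ℝ → X) : Prop := MemLp u 2 (volume.restrict (Ioo 0 T))

/-- `g` is the distributional derivative of `u` on `(0, T)`. -/
def HasWeakDeriv (T : ℝ) (u g : ℝ → X) : Prop :=
  ∀ φ : ℝ → ℝ, ContDiff ℝ ∞ φ → HasCompactSupport φ → tsupport φ ⊆ Ioo 0 T →
    ∫ t in Ioo 0 T, deriv φ t • u t = -∫ t in Ioo 0 T, φ t • g t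

/-- `u ∈ H¹(0, T; X)`. -/
def MemH1 (T : ℝ) (u : ℝ → X) : Prop :=
  MemL2 T u ∧ ∃ g : ℝ → X, MemL2 T g ∧ HasWeakDeriv T u g

/-- `u(0) = 0`: `u` has a representative that is continuous on `[0, T]` and vanishes at `0`. -/
def VanishesAtZero (T : ℝ) (u : ℝ → X) : Prop :=
  ∃ w : ℝ → X, ContinuousOn w (Icc 0 T) ∧ w =ᵐ[volume.restrict (Ioo 0 T)] u ∧ w 0 = 0

end Time

section Lions

variable {V H : Type} [NormedAddCommGroup V] [NormedSpace ℂ V] [NormedAddCommGroup H]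
  [InnerProductSpace ℂ H]

/-- The embedding `H ↪ V*`, `f ↦ (v ↦ (f | v)_H)`, `V*` being the continuous antilinear
functionals on `V`. -/
def toAntidual (val : V →L[ℂ] H) (f : H) : V →L⋆[ℂ] ℂ := (innerSLFlip ℂ f).comp val

/-- `u ∈ H¹(0, T; V*) ∩ L²(0, T; V)` solves `u' + 𝔄 u = f` on `(0, T)`, `u(0) = 0`. -/
structure IsLionsSolution (val : V →L[ℂ] H) (T : ℝ) (𝔄 : ℝ → V →L[ℂ] V →L⋆[ℂ] ℂ) (f : ℝ → H)
    (u : ℝ → V) : Prop where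
  memL2 : MemL2 T u
  memL2_dual : MemL2 T fun t => toAntidual val (val (u t))
  equation : ∃ g : ℝ → V →L⋆[ℂ] ℂ, MemL2 T g ∧
    HasWeakDeriv T (fun t => toAntidual val (val (u t))) g ∧
    ∀ᵐ t ∂(volume.restrict (Ioo 0 T)), g t + 𝔄 t (u t) = toAntidual val (f t)
  initial : VanishesAtZero T fun t => toAntidual val (val (u t))

end Lions

end Pool.Agent.MP_954c34_an
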