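import Pool.Agent.MP_954c34_an.Operators

open MeasureTheory Set Filter Topology
open scoped ContDiff ComplexConjugate

set_option maxSynthPendingDepth 3

noncomputable section

namespace Pool.Agent.MP_954c34_an

variable {E : Type} [NormedAddCommGroup E] [InnerProductSpace ℝ E] [FiniteDimensional ℝ E]
  [MeasurableSpace E] [BorelSpace E] {n : ℕ}

set_option linter.unusedSectionVars false

variable {b : OrthonormalBasis (Fin n) ℝ E}

lemma coordDeriv_add {φ ψ : E → ℂ} (hφ : Differentiable ℝ φ) (hψ : Differentiable ℝ ψ)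
    (i : Fin n) : coordDeriv b i (φ + ψ) = coordDeriv b i φ + coordDeriv b i ψ := by
  funext x
  simp [coordDeriv, fderiv_add (hφ x) (hψ x)]

lemma coordDeriv_smul {φ : E → ℂ} (hφ : Differentiable ℝ φ) (c : ℂ) (i : Fin n) :
    coordDeriv b i (c • φ) = c • coordDeriv b i φ := by
  funext x
  simp [coordDeriv, fderiv_const_smul (hφ x)]

/-- The test jets form a subspace. -/
def testSubmodule (μ : Measure E) (b : OrthonormalBasis (Fin n) ℝ E) (Ω D : Set E) : Submodule ℂ (Jet n μ Ω) where
  carrier := testJets μ b Ω D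
  zero_mem' := ⟨0, contDiff_const, HasCompactSupport.zero, by simp,
    Lp.coeFn_zero ℂ 2 _, fun i => by
      have : coordDeriv b i (0 : E → ℂ) = 0 := by
        funext x
        simp [coordDeriv]
      rw [this]
      exact Lp.coeFn_zero ℂ 2 _⟩
  add_mem' := by
    rintro a b ⟨φ, h1, h2, h3, h4, h5⟩ ⟨ψ, g1, g2, g3, g4, g5⟩
    refine ⟨φ + ψ, h1.add g1, h2.add g2, (tsupport_add φ ψ).trans (union_subset h3 g3),
      (Lp.coeFn_add _ _).trans (h4.add g4), fun i => ?_⟩
    rw [coordDeriv_add (h1.differentiable (by simp)) (g1.differentiable (by simp))]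
    exact (Lp.coeFn_add _ _).trans ((h5 i).add (g5 i))
  smul_mem' := by
    rintro c a ⟨φ, h1, h2, h3, h4, h5⟩
    refine ⟨c • φ, h1.const_smul c, h2.smul_left (f := fun _ => c),
      (tsupport_smul_subset_right (fun _ => c) φ).trans h3,
      (Lp.coeFn_smul c _).trans (h4.const_smul c), fun i => ?_⟩
    rw [coordDeriv_smul (h1.differentiable (by simp))]
    exact (Lp.coeFn_smul c _).trans ((h5 i).const_smul c)

lemma isFormDomain (μ : Measure E) [μ.IsAddHaarMeasure] (b : OrthonormalBasis (Fin n) ℝ E) (Ω D : Set E) :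
    IsFormDomain μ b Ω D (toH μ b Ω D) (fun i => comp μ b Ω D (some i)) where
  norm_sq v := by
    have := PiLp.norm_sq_eq_of_L2 _ (v : Jet n μ Ω)
    rw [Fintype.sum_option] at this
    exact this
  complete := (Submodule.isClosed_topologicalClosure _).completeSpace_coe
  test_mem φ hφ := by
    have hd : ∀ i, Continuous (coordDeriv b i φ) := fun i =>
      (hφ.1.continuous_fderiv (by simp)).clm_apply continuous_const
    have h0 : MemLp φ 2 (μ.restrict Ω) :=
      (hφ.1.continuous.memLp_of_hasCompactSupport hφ.2.1).restrict Ω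
    have h1 : ∀ i, MemLp (coordDeriv b i φ) 2 (μ.restrict Ω) := fun i =>
      ((hd i).memLp_of_hasCompactSupport (hφ.2.1.fderiv_apply ℝ _)).restrict Ω
    refine ⟨⟨WithLp.toLp 2 fun o => o.elim (h0.toLp _) fun i => (h1 i).toLp _,
      Submodule.le_topologicalClosure _ (Submodule.subset_span
        ⟨φ, hφ.1, hφ.2.1, hφ.2.2, h0.coeFn_toLp, fun i => (h1 i).coeFn_toLp⟩)⟩,
      h0.coeFn_toLp, fun i => (h1 i).coeFn_toLp⟩
  test_dense := by
    rw [Subtype.dense_iff]
    have e : Submodule.span ℂ (testJets μ b Ω D) = testSubmodule μ b Ω D :=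
      Submodule.span_eq (testSubmodule μ b Ω D)
    intro w hw
    have hw' : w ∈ closure (testJets μ b Ω D) := by
      have : w ∈ closure (Submodule.span ℂ (testJets μ b Ω D) : Set (Jet n μ Ω)) := hw
      rwa [e] at this
    refine closure_mono ?_ hw'
    rintro a ⟨φ, h1, h2, h3, h4, h5⟩
    exact ⟨⟨a, Submodule.le_topologicalClosure _ (Submodule.subset_span ⟨φ, h1, h2, h3, h4, h5⟩)⟩,
      ⟨φ, ⟨h1, h2, h3⟩, h4, h5⟩, rfl⟩

end Pool.Agent.MP_954c34_an
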