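import Pool.Agent.MP_954c34_an.Primitive

open MeasureTheory Set Filter Topology

noncomputable section

namespace Pool.Agent.MP_954c34_an

/-- Translation by `r` as a continuous map. -/
def shiftMap : C(ℝ, C(ℝ, ℝ)) :=
  ContinuousMap.curry ⟨fun p : ℝ × ℝ => p.2 + p.1, by fun_prop⟩

lemma shiftMap_measurePreserving (r : ℝ) : MeasurePreserving (shiftMap r) volume volume :=
  measurePreserving_add_right volume r

/-- Translation on `L²(ℝ; E)`. -/
def shiftL2 {E : Type} [NormedAddCommGroup E] (f : Lp E 2 (volume : Measure ℝ)) (r : ℝ) :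
    Lp E 2 (volume : Measure ℝ) :=
  Lp.compMeasurePreserving (shiftMap r) (shiftMap_measurePreserving r) f

lemma continuous_shiftL2 {E : Type} [NormedAddCommGroup E] (f : Lp E 2 (volume : Measure ℝ)) :
    Continuous (shiftL2 f) :=
  Continuous.compMeasurePreservingLp continuous_const shiftMap.continuous
    shiftMap_measurePreserving (by simp)

lemma coeFn_shiftL2 {E : Type} [NormedAddCommGroup E] (f : Lp E 2 (volume : Measure ℝ)) (r : ℝ) :
    shiftL2 f r =ᵐ[volume] fun t => f (t + r) :=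
  Lp.coeFn_compMeasurePreserving f (shiftMap_measurePreserving r)

variable {V W : Type} [NormedAddCommGroup V] [NormedSpace ℝ V] [NormedAddCommGroup W]
  [NormedSpace ℝ W] [CompleteSpace W]

lemma energy_aux (B : W →L[ℝ] V →L[ℝ] ℝ) (J : V →L[ℝ] W) (hsymm : ∀ a b, B (J a) b = B (J b) a)
    (hpos : ∀ a, 0 ≤ B (J a) a) {T τ : ℝ} (hτ : τ < T) (w : Lp V 2 (volume : Measure ℝ))
    (g : Lp W 2 (volume : Measure ℝ)) (hgi : Integrable g)
    (hy : ∀ᵐ t, t < T → J (w t) = ∫ s in Iic t, g s) :
    0 ≤ ∫ t in Iic τ, B (g t) (w t) := by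
  set ν : Measure ℝ := volume.restrict (Iic τ) with hν
  set RW := LpToLpRestrictCLM ℝ W ℝ volume 2 (Iic τ) with hRW
  set RV := LpToLpRestrictCLM ℝ V ℝ volume 2 (Iic τ) with hRV
  set Φ : ℝ × ℝ → ℝ := fun p =>
    B.lpPairing ν 2 2 (RW (shiftL2 g p.1)) (RV (shiftL2 w p.2 + w)) with hΦ
  have hΦc : Continuous Φ := by
    have h1 : Continuous fun p : ℝ × ℝ => RW (shiftL2 g p.1) :=
      RW.continuous.comp ((continuous_shiftL2 g).comp continuous_fst)
    have h2 : Continuous fun p : ℝ × ℝ => RV (shiftL2 w p.2 + w) :=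
      RV.continuous.comp (((continuous_shiftL2 w).comp continuous_snd).add continuous_const)
    exact ((B.lpPairing ν 2 2).continuous.comp h1).clm_apply h2
  have hΦe : ∀ r h : ℝ, Φ (r, h) = ∫ t in Iic τ, B (g (t + r)) (w (t + h) + w t) := by
    intro r h
    simp only [hΦ]
    rw [ContinuousLinearMap.lpPairing_eq_integral]
    refine integral_congr_ae ?_
    filter_upwards [LpToLpRestrictCLM_coeFn ℝ (Iic τ) (shiftL2 g r),
      LpToLpRestrictCLM_coeFn ℝ (Iic τ) (shiftL2 w h + w),
      ae_restrict_of_ae (coeFn_shiftL2 g r), ae_restrict_of_ae (coeFn_shiftL2 w h),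
      ae_restrict_of_ae (Lp.coeFn_add (shiftL2 w h) w)] with t h1 h2 h3 h4 h5
    rw [h1, h2, h3, h5, Pi.add_apply, h4]
  have hΦ0 : Φ (0, 0) = 2 * ∫ t in Iic τ, B (g t) (w t) := by
    rw [hΦe, ← integral_const_mul]
    refine integral_congr_ae (Eventually.of_forall fun t => ?_)
    simp only [add_zero, map_add]
    ring
  by_contra hneg
  have hneg' : Φ (0, 0) < 0 := by
    rw [hΦ0]
    linarith [not_le.1 hneg]
  obtain ⟨δ, hδ, hball⟩ := Metric.eventually_nhds_iff.1
    (hΦc.continuousAt.eventually_lt continuousAt_const hneg')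
  set h : ℝ := min (δ / 2) ((T - τ) / 2) with hh
  have h0 : 0 < h := lt_min (by positivity) (by linarith)
  have h1 : h < δ := (min_le_left _ _).trans_lt (by linarith)
  have h2 : τ + h < T := by
    have : h ≤ (T - τ) / 2 := min_le_right _ _
    linarith
  have hlt : 0 < ∫ r in (0 : ℝ)..h, -Φ (r, h) := by
    refine intervalIntegral.intervalIntegral_pos_of_pos_on
      ((hΦc.comp (continuous_id.prodMk continuous_const)).neg.intervalIntegrable _ _)
      (fun r hr => ?_) h0
    have : dist (r, h) ((0 : ℝ), (0 : ℝ)) < δ := by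
      rw [Prod.dist_eq, max_lt_iff]
      simp only [dist_zero_right, Real.norm_eq_abs]
      rw [abs_of_pos hr.1, abs_of_pos h0]
      exact ⟨hr.2.trans h1, h1⟩
    linarith [hball this]
  rw [intervalIntegral.integral_neg] at hlt
  -- the quadratic quantity
  set N : ℝ → ℝ := fun t => B (J (w t)) (w t) with hN
  have hw2 : Integrable fun t => ‖w t‖ ^ 2 := (Lp.memLp w).integrable_norm_pow (by norm_num)
  have hg2 : Integrable fun t => ‖g t‖ ^ 2 := (Lp.memLp g).integrable_norm_pow (by norm_num)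
  have hwm := Lp.stronglyMeasurable w
  have hgm := Lp.stronglyMeasurable g
  have hNi : Integrable N := by
    refine Integrable.mono' (hw2.const_mul (‖B‖ * ‖J‖)) ?_ (Eventually.of_forall fun t => ?_)
    · exact (B.continuous₂.comp_stronglyMeasurable
        ((J.continuous.comp_stronglyMeasurable hwm).prodMk hwm)).aestronglyMeasurable
    · calc ‖B (J (w t)) (w t)‖ ≤ ‖B‖ * ‖J (w t)‖ * ‖w t‖ := B.le_opNorm₂ _ _
        _ ≤ ‖B‖ * (‖J‖ * ‖w t‖) * ‖w t‖ := by gcongr; exact J.le_opNorm _
        _ = ‖B‖ * ‖J‖ * ‖w t‖ ^ 2 := by ring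
  have hNsh : Integrable fun t => N (t + h) := hNi.comp_add_right h
  have hge : 0 ≤ ∫ t in Iic τ, (N (t + h) - N t) := by
    rw [integral_sub hNsh.integrableOn hNi.integrableOn]
    have e : ∫ t in Iic τ, N (t + h) = ∫ t in Iic (τ + h), N t := by
      have := (measurePreserving_add_right volume h).setIntegral_preimage_emb
        (measurableEmbedding_addRight h) N (Iic (τ + h))
      rw [← this]
      congr 2
      ext t
      simp
    rw [e, sub_nonneg]
    exact setIntegral_mono_set hNi.integrableOn (Eventually.of_forall fun t => hpos _)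
      (Iic_subset_Iic.2 (by linarith)).eventuallyLE
  -- Fubini
  set ρ : Measure ℝ := volume.restrict (Ioc 0 h) with hρ
  set Z : ℝ → V := fun t => w (t + h) + w t with hZ
  have hZ2 : MemLp Z 2 volume :=
    ((Lp.memLp w).comp_measurePreserving (measurePreserving_add_right volume h)).add (Lp.memLp w)
  have hZm : StronglyMeasurable Z := (hwm.comp_measurable (measurable_add_const h)).add hwm
  have hint : Integrable (Function.uncurry fun t r => B (g (t + r)) (Z t)) (ν.prod ρ) := by
    rw [hν, Measure.restrict_prod_eq_prod_univ]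
    refine Integrable.integrableOn ?_
    have i1 : Integrable (fun p : ℝ × ℝ => ‖g (p.1 + p.2)‖ ^ 2) ((volume : Measure ℝ).prod ρ) :=
      (measurePreserving_prod_add_swap_right (volume : Measure ℝ) ρ).integrable_comp_of_integrable
        (hg2.comp_snd ρ)
    have i2 : Integrable (fun p : ℝ × ℝ => ‖Z p.1‖ ^ 2) ((volume : Measure ℝ).prod ρ) :=
      (hZ2.integrable_norm_pow (by norm_num)).comp_fst ρ
    refine Integrable.mono' ((i1.add i2).const_mul ‖B‖) ?_ (Eventually.of_forall fun p => ?_)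
    · exact (B.continuous₂.comp_stronglyMeasurable
        ((hgm.comp_measurable measurable_add).prodMk
          (hZm.comp_measurable measurable_fst))).aestronglyMeasurable
    · calc ‖B (g (p.1 + p.2)) (Z p.1)‖ ≤ ‖B‖ * ‖g (p.1 + p.2)‖ * ‖Z p.1‖ := B.le_opNorm₂ _ _
        _ = ‖B‖ * (‖g (p.1 + p.2)‖ * ‖Z p.1‖) := by ring
        _ ≤ ‖B‖ * (‖g (p.1 + p.2)‖ ^ 2 + ‖Z p.1‖ ^ 2) := by
          gcongr
          nlinarith [sq_nonneg (‖g (p.1 + p.2)‖ - ‖Z p.1‖), norm_nonneg (g (p.1 + p.2)),
            norm_nonneg (Z p.1)]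
  have hswap := integral_integral_swap hint
  have hR : ∫ r, ∫ t, B (g (t + r)) (Z t) ∂ν ∂ρ = ∫ r in (0 : ℝ)..h, Φ (r, h) := by
    rw [intervalIntegral.integral_of_le h0.le]
    simp only [hΦe, hρ, hν, hZ]
  have hL : ∫ t, ∫ r, B (g (t + r)) (Z t) ∂ρ ∂ν = ∫ t in Iic τ, (N (t + h) - N t) := by
    refine integral_congr_ae ?_
    have hy' : ∀ᵐ t, t + h < T → J (w (t + h)) = ∫ s in Iic (t + h), g s :=
      (measurePreserving_add_right volume h).quasiMeasurePreserving.ae hy
    filter_upwards [ae_restrict_of_ae hy, ae_restrict_of_ae hy', ae_restrict_mem measurableSet_Iic]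
      with t ht ht' htτ
    have htτ' : t ≤ τ := htτ
    have e1 := ht (by linarith)
    have e2 := ht' (by linarith)
    have e3 : J (w (t + h)) - J (w t) = ∫ r in (0 : ℝ)..h, g (t + r) := by
      rw [e1, e2, intervalIntegral.integral_Iic_sub_Iic hgi.integrableOn hgi.integrableOn,
        intervalIntegral.integral_comp_add_left (fun s => g s) t, add_zero]
    have e4 := (B.flip (Z t)).intervalIntegral_comp_comm (μ := volume) (a := 0) (b := h)
      (f := fun r => g (t + r)) (hgi.comp_add_left t).intervalIntegrable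
    rw [← e3, intervalIntegral.integral_of_le h0.le] at e4
    simp only [ContinuousLinearMap.flip_apply] at e4
    rw [hρ, e4]
    simp only [hZ, hN, map_sub, map_add, sub_apply]
    rw [hsymm (w t) (w (t + h))]
    ring
  rw [hL, hR] at hswap
  linarith

/-- The energy inequality. -/
lemma energy (B : W →L[ℝ] V →L[ℝ] ℝ) (J : V →L[ℝ] W) (hsymm : ∀ a b, B (J a) b = B (J b) a)
    (hpos : ∀ a, 0 ≤ B (J a) a) {T τ : ℝ} (hτ : τ < T) {w : ℝ → V} {g : ℝ → W}
    (hw : MemL2 T w) (hg : MemL2 T g)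
    (hy : (fun t => J (w t)) =ᵐ[volume.restrict (Ioo 0 T)] fun t => ∫ s in Ioo 0 t, g s) :
    0 ≤ ∫ t in Ioo 0 τ, B (g t) (w t) := by
  have hw' : MemLp ((Ioo 0 T).indicator w) 2 volume :=
    (memLp_indicator_iff_restrict measurableSet_Ioo).2 hw
  have hg' : MemLp ((Ioo 0 T).indicator g) 2 volume :=
    (memLp_indicator_iff_restrict measurableSet_Ioo).2 hg
  have hgi : Integrable ((Ioo 0 T).indicator g) :=
    (integrable_indicator_iff measurableSet_Ioo).2 hg.integrableOn
  have hinter : ∀ t, t < T → (Ioo 0 T ∩ Iic t : Set ℝ) =ᵐ[volume] (Ioo 0 t : Set ℝ) := by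
    intro t ht
    suffices hs : (Ioo 0 T ∩ Iic t : Set ℝ) = Ioc 0 t by
      rw [hs]
      exact (Ioo_ae_eq_Ioc (a := 0) (b := t)).symm
    ext s
    simp only [mem_inter_iff, mem_Ioo, mem_Iic, mem_Ioc]
    constructor
    · rintro ⟨⟨h1, _⟩, h2⟩
      exact ⟨h1, h2⟩
    · rintro ⟨h1, h2⟩
      exact ⟨⟨h1, h2.trans_lt ht⟩, h2⟩
  have key := energy_aux B J hsymm hpos hτ hw'.toLp hg'.toLp
    (hgi.congr hg'.coeFn_toLp.symm) (by
      have hy' := (ae_restrict_iff' measurableSet_Ioo).1 hy
      filter_upwards [hy', hw'.coeFn_toLp] with t h1 h2 ht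
      rw [h2, integral_congr_ae (ae_restrict_of_ae hg'.coeFn_toLp),
        integral_indicator measurableSet_Ioo, Measure.restrict_restrict measurableSet_Ioo,
        setIntegral_congr_set (hinter t ht)]
      by_cases h0 : 0 < t
      · rw [indicator_of_mem (show t ∈ Ioo 0 T from ⟨h0, ht⟩), h1 ⟨h0, ht⟩]
      · rw [indicator_of_notMem (fun h' => h0 h'.1), Ioo_eq_empty h0]
        simp)
  have e : ∫ t in Iic τ, B (hg'.toLp _ t) (hw'.toLp _ t) =
      ∫ t in Iic τ, (Ioo 0 T).indicator (fun t => B (g t) (w t)) t := by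
    refine integral_congr_ae ?_
    filter_upwards [ae_restrict_of_ae hg'.coeFn_toLp, ae_restrict_of_ae hw'.coeFn_toLp]
      with t h1 h2
    rw [h1, h2]
    by_cases ht : t ∈ Ioo 0 T
    · simp only [indicator_of_mem ht]
    · simp [indicator_of_notMem ht]
  rw [e, integral_indicator measurableSet_Ioo, Measure.restrict_restrict measurableSet_Ioo,
    setIntegral_congr_set (hinter τ hτ)] at key
  exact key

end Pool.Agent.MP_954c34_an
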