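import Pool.Agent.MP_954c34_an.Main

open MeasureTheory Set Filter Topology
open scoped ContDiff ComplexConjugate InnerProductSpace BoundedContinuousFunction Matrix

set_option maxSynthPendingDepth 3

noncomputable section

namespace Pool.Agent.MP_954c34_an

variable {E : Type} [NormedAddCommGroup E] [InnerProductSpace ℝ E] [FiniteDimensional ℝ E]
  [MeasurableSpace E] [BorelSpace E] {n : ℕ}

set_option linter.unusedSectionVars false

lemma norm_four_pow_smul_le {X : Type*} [NormedAddCommGroup X] [NormedSpace ℝ X] {a : X} {M : ℝ}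
    {k : ℕ} (h : ‖a‖ ≤ M * (1 / 8) ^ k) : (4 : ℝ) ^ k * ‖a‖ ≤ M * (1 / 2) ^ k := by
  have e : (4 : ℝ) ^ k * (M * (1 / 8) ^ k) = M * (1 / 2) ^ k := by
    rw [mul_left_comm, ← mul_pow]
    norm_num
  rw [← e]
  gcongr

lemma not_memH1 {μ : Measure E} {Ω : Set E} {T : ℝ} (hT : 0 < T) (g : L2 μ Ω) {a b : ℕ → L2 μ Ω}
    (ha : Summable fun k => ‖a k‖) (hb : Summable fun k => ‖b k‖) {c : ℝ} (hc : 0 < c)
    (hlow : ∀ j : ℕ, c ≤ (4 : ℝ) ^ j * ‖b j - Complex.I • a j‖) {u : ℝ → L2 μ Ω}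
    (hu : u =ᵐ[volume.restrict (Ioo 0 T)] fun t => t • (g + wave a b t)) : ¬MemH1 T u := by
  rintro ⟨-, γ, hγ, h⟩
  have := tendsto_of_hasWeakDeriv hT g ha hb hγ.integrableOn (h.congr_left hu)
  exact absurd (ge_of_tendsto' this hlow) (not_le.2 hc)

theorem main (hn : 1 ≤ n) (μ : Measure E) [μ.IsAddHaarMeasure] (b : OrthonormalBasis (Fin n) ℝ E) (Ω D : Set E) (hΩ : IsOpen Ω) (hne : Ω.Nonempty)
    (hD : D ⊆ frontier Ω) (T : ℝ) (hT : 0 < T) :
    ∃ (A : ℝ → E → Matrix (Fin n) (Fin n) ℂ) (lam Lam C : ℝ)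
      (𝔄 : ℝ → formDomain μ b Ω D →L[ℂ] Antidual μ b Ω D),
      (∀ i j, Measurable fun p : ℝ × E => A p.1 p.2 i j) ∧
      0 < lam ∧ lam ≤ Lam ∧ (∀ t x, IsElliptic lam Lam (A t x)) ∧
      (∀ t x i j, (A t x i j).im = 0 ∧ A t x i j = A t x j i) ∧
      (∀ t u v, 𝔄 t u v = form μ b Ω D (A t) u v) ∧
      (∀ t s, ‖𝔄 t - 𝔄 s‖ ≤ C * |t - s| ^ (1 / 2 : ℝ)) ∧
      ∃ f : ℝ → L2 μ Ω, MemL2 T f ∧ (∃ u, IsLionsSolution (toH μ b Ω D) T 𝔄 f u) ∧
        ∀ u, IsLionsSolution (toH μ b Ω D) T 𝔄 f u → ¬MemH1 T fun t => toH μ b Ω D (u t) := by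
  set i₀ : Fin n := ⟨0, hn⟩ with hi₀
  have : CompleteSpace (formDomain μ b Ω D) :=
    (Submodule.isClosed_topologicalClosure _).completeSpace_coe
  obtain ⟨K, χ, g, hK, hKΩ, hKD, hχ, hg, ⟨x₀, hx₀⟩, hgχ⟩ := exists_bumps b i₀ hΩ hne hD
  have hK₀ : IsCompact (tsupport χ) := hχ.compact hK
  obtain ⟨cc, ss, M, hM, hcc₀, hss₀, bc0, bs0, bc1, bs1, bc2, bs2, hlow⟩ :=
    exists_osc b i₀ hK₀ (χ := χ) ⟨hχ.smooth, subset_rfl⟩
  have hcc : ∀ k, Test K (cc k) := fun k => (hcc₀ k).mono hχ.supp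
  have hss : ∀ k, Test K (ss k) := fun k => (hss₀ k).mono hχ.supp
  set a0 : ℕ → (E →ᵇ ℝ) := fun k => bcf (cc k) with ha0
  set b0 : ℕ → (E →ᵇ ℝ) := fun k => bcf (ss k) with hb0
  set a2 : Fin n → ℕ → (E →ᵇ ℝ) := fun i k => bcf (pd b i (pd b i₀ (cc k))) with ha2
  set b2 : Fin n → ℕ → (E →ᵇ ℝ) := fun i k => bcf (pd b i (pd b i₀ (ss k))) with hb2
  have na0 : ∀ k, (4 : ℝ) ^ k * ‖a0 k‖ ≤ M * (1 / 2) ^ k := fun k =>
    norm_four_pow_smul_le ((hcc k).norm_bcf_le hK (bc0 k))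
  have nb0 : ∀ k, (4 : ℝ) ^ k * ‖b0 k‖ ≤ M * (1 / 2) ^ k := fun k =>
    norm_four_pow_smul_le ((hss k).norm_bcf_le hK (bs0 k))
  have na2 : ∀ i k, ‖a2 i k‖ ≤ M * (1 / 2) ^ k := fun i k =>
    (((hcc k).pd b i₀).pd b i).norm_bcf_le hK (bc2 k i)
  have nb2 : ∀ i k, ‖b2 i k‖ ≤ M * (1 / 2) ^ k := fun i k =>
    (((hss k).pd b i₀).pd b i).norm_bcf_le hK (bs2 k i)
  have sa0 := summable_of_le_half_pow (fun k => by positivity) na0
  have sb0 := summable_of_le_half_pow (fun k => by positivity) nb0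
  have hle : ∀ (c : ℕ → (E →ᵇ ℝ)) (k : ℕ), ‖c k‖ ≤ (4 : ℝ) ^ k * ‖c k‖ := fun c k =>
    le_mul_of_one_le_left (norm_nonneg _) (one_le_pow₀ (by norm_num))
  have sa0' : Summable fun k => ‖a0 k‖ :=
    Summable.of_nonneg_of_le (fun _ => norm_nonneg _) (hle a0) sa0
  have sb0' : Summable fun k => ‖b0 k‖ :=
    Summable.of_nonneg_of_le (fun _ => norm_nonneg _) (hle b0) sb0
  have sa2 := fun i => summable_of_le_half_pow (fun k => norm_nonneg _) (na2 i)
  have sb2 := fun i => summable_of_le_half_pow (fun k => norm_nonneg _) (nb2 i)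
  set a1 : ℕ → (E →ᵇ ℝ) := fun k => (-(4 : ℝ) ^ k) • b0 k with ha1
  set b1 : ℕ → (E →ᵇ ℝ) := fun k => ((4 : ℝ) ^ k) • a0 k with hb1
  have na1 : ∀ k, ‖a1 k‖ ≤ M * (1 / 2) ^ k := fun k => by
    simpa [ha1, norm_smul] using nb0 k
  have nb1 : ∀ k, ‖b1 k‖ ≤ M * (1 / 2) ^ k := fun k => by
    simpa [hb1, norm_smul] using na0 k
  have sa1 := summable_of_le_half_pow (fun k => norm_nonneg _) na1
  have sb1 := summable_of_le_half_pow (fun k => norm_nonneg _) nb1
  set Q : ℝ → (E →ᵇ ℝ) := wave a1 b1 with hQ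
  set P : Fin n → ℝ → (E →ᵇ ℝ) := fun i => wave (a2 i) (b2 i) with hP
  have hQc : Continuous Q := continuous_wave sa1 sb1
  obtain ⟨ε, C, a, hε, hac, hasymm, haell, hahold, ha0', haid⟩ :=
    exists_coeff i₀ P Q (M := 24 * M) (by positivity)
      (fun i t => (norm_wave_le (na2 i) (nb2 i) t).trans (by linarith))
      (fun t => (norm_wave_le na1 nb1 t).trans (by linarith))
      (fun i t s => norm_wave_sub_le (na2 i) (nb2 i) t s) (fun t s => norm_wave_sub_le na1 nb1 t s)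
      (fun i => continuous_wave (sa2 i) (sb2 i)) hQc
  obtain ⟨K₁, hK₁, hK₁'⟩ := exists_norm_matOp_sub_le μ b Ω D
  -- the key identity
  have hkey : ∀ t i, ∑ j, a t i j * (bcf (pd b j g) + ε • P j t) =
      bcf (pd b i g) + (kron i₀ i * ε) • Q t := by
    intro t i
    ext x
    simp only [BoundedContinuousFunction.coe_sum, Finset.sum_apply,
      BoundedContinuousFunction.coe_mul, Pi.mul_apply, BoundedContinuousFunction.coe_add,
      Pi.add_apply, BoundedContinuousFunction.coe_smul, smul_eq_mul,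
      (hg.pd b _).bcf_apply hK]
    by_cases hx : x ∈ tsupport χ
    · simp only [hgχ x hx]
      exact haid t x i
    · have h1 : ∀ j, P j t x = 0 := fun j => wave_apply_eq_zero (sa2 j) (sb2 j)
        (fun k => ((((hcc k).pd b i₀).pd b j).bcf_apply hK x).trans
          ((((hcc₀ k).pd b i₀).pd b j).eq_zero hx))
        (fun k => ((((hss k).pd b i₀).pd b j).bcf_apply hK x).trans
          ((((hss₀ k).pd b i₀).pd b j).eq_zero hx)) t
      have h2 : Q t x = 0 := wave_apply_eq_zero sa1 sb1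
        (fun k => by simp [ha1, hb0, (hss k).bcf_apply hK x, (hss₀ k).eq_zero hx])
        (fun k => by simp [hb1, ha0, (hcc k).bcf_apply hK x, (hcc₀ k).eq_zero hx]) t
      simp only [ha0' t x h1 h2, h1, h2, mul_zero, add_zero, sum_kron_mul]
  -- the solution
  set α : ℕ → formDomain μ b Ω D := fun k => jetV μ b Ω D hK hKD ((hcc k).pd b i₀) with hα
  set β : ℕ → formDomain μ b Ω D := fun k => jetV μ b Ω D hK hKD ((hss k).pd b i₀) with hβ
  set G : formDomain μ b Ω D := jetV μ b Ω D hK hKD hg with hG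
  have sα : Summable fun k => ‖α k‖ :=
    summable_of_le_half_pow (C := ‖jetL n μ Ω hK‖ * M) (fun k => norm_nonneg _) fun k =>
      (norm_jetV_le μ b Ω D hK hKD _ (bc1 k) (bc2 k)).trans_eq (mul_assoc _ _ _).symm
  have sβ : Summable fun k => ‖β k‖ :=
    summable_of_le_half_pow (C := ‖jetL n μ Ω hK‖ * M) (fun k => norm_nonneg _) fun k =>
      (norm_jetV_le μ b Ω D hK hKD _ (bs1 k) (bs2 k)).trans_eq (mul_assoc _ _ _).symm
  set U : ℝ → formDomain μ b Ω D := fun t => G + ε • wave α β t with hU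
  have hUc : Continuous U := continuous_const.add ((continuous_wave sα sβ).const_smul ε)
  have hcompU : ∀ t j, comp μ b Ω D (some j) (U t) = cut μ Ω hK (bcf (pd b j g) + ε • P j t) := by
    intro t j
    have h1 := map_wave ((comp μ b Ω D (some j)).restrictScalars ℝ) sα sβ t
    have h2 := map_wave (cut μ Ω hK) (sa2 j) (sb2 j) t
    have h3 : comp μ b Ω D (some j) (wave α β t) = cut μ Ω hK (P j t) := h1.trans h2.symm
    rw [hU, map_add, map_add, ContinuousLinearMap.map_smul_of_tower, map_smul, h3]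
    rfl
  set N : (E →ᵇ ℝ) →L[ℝ] Antidual μ b Ω D :=
    ((dualOf μ b Ω D (some i₀)).restrictScalars ℝ).comp (cut μ Ω hK) with hN
  have hembU : (fun t => embed μ b Ω D (U t)) = fun t => embed μ b Ω D G - ε • N (wave a0 b0 t) := by
    funext t
    have h1 := map_wave (embed μ b Ω D) sα sβ t
    have h2 := map_wave (-N) sa0' sb0' t
    have h3 : (fun k => embed μ b Ω D (α k)) = fun k => (-N) (a0 k) :=
      funext fun k => (hcc k).dualOf_pd hK hKΩ i₀
    have h4 : (fun k => embed μ b Ω D (β k)) = fun k => (-N) (b0 k) :=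
      funext fun k => (hss k).dualOf_pd hK hKΩ i₀
    rw [hU, map_add, map_smul, h1, h3, h4, ← h2, neg_apply, smul_neg, sub_eq_add_neg]
  have hderU : ∀ t, HasDerivAt (fun t => embed μ b Ω D (U t)) (-(ε • N (Q t))) t := by
    intro t
    rw [hembU]
    exact ((N.hasFDerivAt.comp_hasDerivAt t (hasDerivAt_wave sa0 sb0 t)).const_smul ε).const_sub _
  set Δ : L2 μ Ω := ∑ i, cut μ Ω hK (bcf (pd b i (pd b i g))) with hΔ
  have hAU : ∀ t, matOp μ b Ω D (a t) (U t) = -dualOf μ b Ω D none Δ + ε • N (Q t) := by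
    intro t
    have h1 : ∀ i, ∑ j, dualOf μ b Ω D (some i) (mulOp μ Ω (a t i j) (comp μ b Ω D (some j) (U t))) =
        -dualOf μ b Ω D none (cut μ Ω hK (bcf (pd b i (pd b i g)))) +
          (kron i₀ i * ε) • dualOf μ b Ω D (some i) (cut μ Ω hK (Q t)) := by
      intro i
      simp only [hcompU, mulOp_cut]
      rw [← map_sum, ← map_sum, hkey, map_add, map_add, map_smul,
        ContinuousLinearMap.map_smul_of_tower, (hg.pd b i).dualOf_pd hK hKΩ i, neg_neg]
    rw [matOp_apply]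
    simp only [h1, Finset.sum_add_distrib, Finset.sum_neg_distrib]
    rw [hΔ, map_sum]
    congr 1
    rw [Finset.sum_eq_single i₀]
    · simp [kron, hN]
    · intro i _ hi
      simp [kron, hi.symm]
    · simp
  set v : ℝ → formDomain μ b Ω D := fun t => t • U t with hv
  have hvc : Continuous v := continuous_id.smul hUc
  set f : ℝ → L2 μ Ω := fun t => toH μ b Ω D (U t) - t • Δ with hf
  have hfc : Continuous f :=
    ((toH μ b Ω D).continuous.comp hUc).sub (continuous_id.smul continuous_const)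
  have hderv : ∀ t, HasDerivAt (fun t => embed μ b Ω D (v t))
      (t • -(ε • N (Q t)) + embed μ b Ω D (U t)) t := by
    intro t
    have := (hasDerivAt_id t).smul (hderU t)
    simpa only [hv, map_smul, id, one_smul, Pi.smul_def'] using this
  have hgc : Continuous fun t : ℝ => t • -(ε • N (Q t)) + embed μ b Ω D (U t) :=
    (continuous_id.smul ((N.continuous.comp hQc).const_smul ε).neg).add
      ((embed μ b Ω D).continuous.comp hUc)
  have hevc : Continuous fun t => embed μ b Ω D (v t) := (embed μ b Ω D).continuous.comp hvc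
  have hsol : IsLionsSolution (toH μ b Ω D) T (fun t => matOp μ b Ω D (a t)) f v := by
    refine ⟨memL2_of_continuous hvc, memL2_of_continuous hevc, ⟨_, memL2_of_continuous hgc,
      hasWeakDeriv_of_hasDerivAt hT hderv hgc, Eventually.of_forall fun t => ?_⟩,
      ⟨_, hevc.continuousOn, EventuallyEq.rfl, by simp [hv]⟩⟩
    rw [hv, hf, ContinuousLinearMap.map_smul_of_tower, hAU, toAntidual_eq, map_sub,
      ContinuousLinearMap.map_smul_of_tower, embed_apply, toAntidual_eq]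
    module
  refine ⟨fun t x => Matrix.of fun i j => (a t i j x : ℂ), 1 / 2, 2, K₁ * C,
    fun t => matOp μ b Ω D (a t), fun i j => (Complex.continuous_ofReal.comp (hac i j)).measurable,
    by norm_num, by norm_num, haell, fun t x i j => ⟨by simp, by simp [hasymm t i j x]⟩,
    fun t u v => matOp_eq_form μ b Ω D (a t) u v, fun t s => ?_, f, memL2_of_continuous hfc,
    ⟨v, hsol⟩, fun u hu => ?_⟩
  · rw [← Real.sqrt_eq_rpow, mul_assoc K₁]
    exact hK₁' _ _ _ (hahold t s)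
  · have huv := lions_unique hT (fun t u => matOp_coercive μ b Ω D hΩ.measurableSet (a t)
      (by norm_num) (fun x _ => haell t x) u) hu hsol
    set L : formDomain μ b Ω D →L[ℝ] L2 μ Ω := ε • (toH μ b Ω D).restrictScalars ℝ with hL
    have hsum : ∀ γ : ℕ → formDomain μ b Ω D, (Summable fun k => ‖γ k‖) →
        Summable fun k => ‖L (γ k)‖ := fun γ h =>
      Summable.of_nonneg_of_le (fun _ => norm_nonneg _) (fun k => L.le_opNorm _) (h.mul_left _)
    have hχ0 : 0 < ‖cut μ Ω hK (bcf χ)‖ := by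
      rw [norm_pos_iff]
      intro h0
      have h1 : (fun x => (χ x : ℂ)) =ᵐ[μ.restrict Ω] fun _ => 0 := by
        filter_upwards [hχ.coeFn_cut μ Ω hK, Lp.coeFn_zero ℂ 2 (μ.restrict Ω)] with x h1 h2
        rw [← h1, h0, h2]
        rfl
      have h2 := Measure.eqOn_open_of_ae_eq h1 hΩ
        (Complex.continuous_ofReal.comp hχ.smooth.continuous).continuousOn continuousOn_const
        (hKΩ (hχ.supp (subset_tsupport _ hx₀)))
      exact hx₀ (by simpa using h2)
    refine not_memH1 hT (toH μ b Ω D G) (hsum α sα) (hsum β sβ) (mul_pos hε hχ0) (fun j => ?_)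
      (huv.trans (Eventually.of_forall fun t => ?_))
    · have e : L (β j) - Complex.I • L (α j) =
          ε • (cut μ Ω hK (bcf (pd b i₀ (ss j))) - Complex.I • cut μ Ω hK (bcf (pd b i₀ (cc j)))) := by
        rw [smul_sub, smul_comm ε Complex.I]
        rfl
      rw [e, norm_smul, Real.norm_of_nonneg hε.le, mul_left_comm]
      refine mul_le_mul_of_nonneg_left (Lp.norm_le_mul_norm_of_ae_le_mul ?_) hε.le
      filter_upwards [hχ.coeFn_cut μ Ω hK, ((hss j).pd b i₀).coeFn_cut μ Ω hK,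
        ((hcc j).pd b i₀).coeFn_cut μ Ω hK,
        Lp.coeFn_sub (cut μ Ω hK (bcf (pd b i₀ (ss j)))) (Complex.I • cut μ Ω hK (bcf (pd b i₀ (cc j)))),
        Lp.coeFn_smul Complex.I (cut μ Ω hK (bcf (pd b i₀ (cc j))))] with x h1 h2 h3 h4 h5
      rw [h1, h4, Pi.sub_apply, h5, Pi.smul_apply, h2, h3, Complex.norm_real, Real.norm_eq_abs,
        smul_eq_mul]
      exact hlow j x
    · have h1 := map_wave L sα sβ t
      simp only [hv, hU]
      rw [ContinuousLinearMap.map_smul_of_tower, map_add, ContinuousLinearMap.map_smul_of_tower,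
        ← h1]
      rfl

end Pool.Agent.MP_954c34_an
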