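import Pool.Agent.MP_954c34_an.Operators

open MeasureTheory Set Filter Topology
open scoped ContDiff ComplexConjugate InnerProductSpace BoundedContinuousFunction Matrix

set_option maxSynthPendingDepth 3

noncomputable section

namespace Pool.Agent.MP_954c34_an

variable {E : Type} [NormedAddCommGroup E] [InnerProductSpace ℝ E] [FiniteDimensional ℝ E]
  [MeasurableSpace E] [BorelSpace E] {n : ℕ}

set_option linter.unusedSectionVars false

/-- The derivative of a real function in the `i`-th direction. -/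
def pd (b : OrthonormalBasis (Fin n) ℝ E) (i : Fin n) (F : E → ℝ) (x : E) : ℝ :=
  fderiv ℝ F x (b i)

/-- Smooth functions supported in `K`. -/
structure Test (K : Set E) (F : E → ℝ) : Prop where
  smooth : ContDiff ℝ ∞ F
  supp : tsupport F ⊆ K

lemma Test.pd {K : Set E} {F : E → ℝ} (h : Test K F) (b : OrthonormalBasis (Fin n) ℝ E) (i : Fin n) :
    Test K (pd b i F) :=
  ⟨(h.smooth.fderiv_right (m := ∞) (by simp)).clm_apply contDiff_const,
    (tsupport_fderiv_apply_subset ℝ _).trans h.supp⟩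

lemma Test.mono {K K' : Set E} {F : E → ℝ} (h : Test K F) (hK : K ⊆ K') :
    Test K' F := ⟨h.smooth, h.supp.trans hK⟩

lemma Test.compact {K : Set E} {F : E → ℝ} (h : Test K F) (hK : IsCompact K) :
    HasCompactSupport F := hK.of_isClosed_subset (isClosed_tsupport _) h.supp

lemma Test.eq_zero {K : Set E} {F : E → ℝ} (h : Test K F) {x : E}
    (hx : x ∉ K) : F x = 0 := image_eq_zero_of_notMem_tsupport fun h' => hx (h.supp h')

lemma Test.differentiable {K : Set E} {F : E → ℝ} (h : Test K F) :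
    Differentiable ℝ F := h.smooth.differentiable (by simp)

open Classical in
/-- A continuous compactly supported function as a bounded continuous function. -/
def bcf (F : E → ℝ) : E →ᵇ ℝ :=
  if h : Continuous F ∧ HasCompactSupport F then ofCompactSupport F h.1 h.2 else 0

lemma Test.bcf_apply {K : Set E} {F : E → ℝ} (h : Test K F) (hK : IsCompact K)
    (x : E) : bcf F x = F x := by
  rw [bcf, dif_pos ⟨h.smooth.continuous, h.compact hK⟩]
  rfl

lemma Test.norm_bcf_le {K : Set E} {F : E → ℝ} (h : Test K F) (hK : IsCompact K)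
    {C : ℝ} (hC : ∀ x, |F x| ≤ C) : ‖bcf F‖ ≤ C :=
  (BoundedContinuousFunction.norm_le ((abs_nonneg _).trans (hC 0))).2 fun x => by
    rw [h.bcf_apply hK]
    exact hC x

lemma Test.exists_bound {K : Set E} {F : E → ℝ} (h : Test K F) (hK : IsCompact K) :
    ∃ C, 0 ≤ C ∧ ∀ x, |F x| ≤ C :=
  ⟨‖bcf F‖, norm_nonneg _, fun x => by
    rw [← h.bcf_apply hK]
    exact (bcf F).norm_coe_le_norm x⟩

/-- The indicator function of a compact set in `L²(Ω)`. -/
def kappa (μ : Measure E) [μ.IsAddHaarMeasure] (Ω : Set E) {K : Set E} (hK : IsCompact K) : L2 μ Ω :=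
  indicatorConstLp 2 hK.measurableSet
    ((Measure.restrict_apply_le Ω K).trans_lt hK.measure_lt_top).ne (1 : ℂ)

/-- Cutting off a bounded function outside `K`. -/
def cut (μ : Measure E) [μ.IsAddHaarMeasure] (Ω : Set E) {K : Set E} (hK : IsCompact K) :
    (E →ᵇ ℝ) →L[ℝ] L2 μ Ω :=
  ((ContinuousLinearMap.apply ℂ (L2 μ Ω) (kappa μ Ω hK)).restrictScalars ℝ).comp (mulOp μ Ω)

lemma cut_apply (μ : Measure E) [μ.IsAddHaarMeasure] (Ω : Set E) {K : Set E} (hK : IsCompact K) (m : E →ᵇ ℝ) :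
    cut μ Ω hK m = mulOp μ Ω m (kappa μ Ω hK) := rfl

lemma mulOp_cut (μ : Measure E) [μ.IsAddHaarMeasure] (Ω : Set E) {K : Set E} (hK : IsCompact K)
    (m m' : E →ᵇ ℝ) : mulOp μ Ω m (cut μ Ω hK m') = cut μ Ω hK (m * m') :=
  mulOp_mul μ Ω m m' _

lemma Test.coeFn_cut (μ : Measure E) [μ.IsAddHaarMeasure] (Ω : Set E) {K : Set E} {F : E → ℝ} (h : Test K F)
    (hK : IsCompact K) : cut μ Ω hK (bcf F) =ᵐ[μ.restrict Ω] fun x => (F x : ℂ) := by
  filter_upwards [coeFn_mulOp μ Ω (bcf F) (kappa μ Ω hK), indicatorConstLp_coeFn (p := 2)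
    (hs := hK.measurableSet)
    (hμs := ((Measure.restrict_apply_le Ω K).trans_lt hK.measure_lt_top).ne) (c := (1 : ℂ))]
    with x h1 h2
  rw [cut_apply, h1, kappa, h2, h.bcf_apply hK]
  by_cases hx : x ∈ K
  · simp [indicator_of_mem hx]
  · simp [h.eq_zero hx]

/-- Assembling a jet from its components. -/
def jetL (n : ℕ) (μ : Measure E) [μ.IsAddHaarMeasure] (Ω : Set E) {K : Set E} (hK : IsCompact K) :
    (Option (Fin n) → (E →ᵇ ℝ)) →L[ℝ] Jet n μ Ω :=
  ((PiLp.continuousLinearEquiv 2 ℝ (fun _ : Option (Fin n) => L2 μ Ω)).symm :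
    (Option (Fin n) → L2 μ Ω) →L[ℝ] Jet n μ Ω).comp
    (ContinuousLinearMap.pi fun o => (cut μ Ω hK).comp (ContinuousLinearMap.proj o))

lemma jetL_apply (μ : Measure E) [μ.IsAddHaarMeasure] (Ω : Set E) {K : Set E} (hK : IsCompact K)
    (m : Option (Fin n) → (E →ᵇ ℝ)) (o : Option (Fin n)) :
    jetL n μ Ω hK m o = cut μ Ω hK (m o) := rfl

/-- The function and its first derivatives. -/
def comps (b : OrthonormalBasis (Fin n) ℝ E) (F : E → ℝ) (o : Option (Fin n)) : E →ᵇ ℝ :=
  o.elim (bcf F) fun i => bcf (pd b i F)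

lemma coordDeriv_ofReal (b : OrthonormalBasis (Fin n) ℝ E) {F : E → ℝ} (hF : Differentiable ℝ F) (i : Fin n) :
    coordDeriv b i (fun x => (F x : ℂ)) = fun x => (pd b i F x : ℂ) := by
  funext x
  have := (Complex.ofRealCLM.hasFDerivAt.comp x (hF x).hasFDerivAt).fderiv
  unfold coordDeriv pd
  erw [this]
  rfl

lemma Test.jet_mem {μ : Measure E} [μ.IsAddHaarMeasure] {b : OrthonormalBasis (Fin n) ℝ E} {Ω D K : Set E} {F : E → ℝ} (h : Test K F) (hK : IsCompact K)
    (hD : K ⊆ Dᶜ) : jetL n μ Ω hK (comps b F) ∈ formDomain μ b Ω D := by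
  refine Submodule.le_topologicalClosure _ (Submodule.subset_span ?_)
  have hs : tsupport (fun x => (F x : ℂ)) ⊆ tsupport F :=
    closure_mono fun x hx => by simpa using hx
  refine ⟨fun x => (F x : ℂ), Complex.ofRealCLM.contDiff.comp h.smooth,
    hK.of_isClosed_subset (isClosed_tsupport _) (hs.trans h.supp), hs.trans (h.supp.trans hD),
    h.coeFn_cut μ Ω hK, fun i => ?_⟩
  rw [coordDeriv_ofReal b h.differentiable]
  exact (h.pd b i).coeFn_cut μ Ω hK

/-- A test function as an element of `V`. -/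
def jetV (μ : Measure E) [μ.IsAddHaarMeasure] (b : OrthonormalBasis (Fin n) ℝ E) (Ω D : Set E) {K : Set E} (hK : IsCompact K) (hD : K ⊆ Dᶜ)
    {F : E → ℝ} (h : Test K F) : formDomain μ b Ω D :=
  ⟨jetL n μ Ω hK (comps b F), h.jet_mem hK hD⟩

lemma comp_jetV_none (μ : Measure E) [μ.IsAddHaarMeasure] (b : OrthonormalBasis (Fin n) ℝ E) (Ω D : Set E) {K : Set E} (hK : IsCompact K) (hD : K ⊆ Dᶜ)
    {F : E → ℝ} (h : Test K F) :
    comp μ b Ω D none (jetV μ b Ω D hK hD h) = cut μ Ω hK (bcf F) := rfl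

lemma comp_jetV_some (μ : Measure E) [μ.IsAddHaarMeasure] (b : OrthonormalBasis (Fin n) ℝ E) (Ω D : Set E) {K : Set E} (hK : IsCompact K) (hD : K ⊆ Dᶜ)
    {F : E → ℝ} (h : Test K F) (i : Fin n) :
    comp μ b Ω D (some i) (jetV μ b Ω D hK hD h) = cut μ Ω hK (bcf (pd b i F)) := rfl

lemma norm_jetV_le (μ : Measure E) [μ.IsAddHaarMeasure] (b : OrthonormalBasis (Fin n) ℝ E) (Ω D : Set E) {K : Set E} (hK : IsCompact K) (hD : K ⊆ Dᶜ)
    {F : E → ℝ} (h : Test K F) {C : ℝ} (h0 : ∀ x, |F x| ≤ C) (h1 : ∀ i x, |pd b i F x| ≤ C) :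
    ‖jetV μ b Ω D hK hD h‖ ≤ ‖jetL n μ Ω hK‖ * C := by
  have hC : 0 ≤ C := (abs_nonneg _).trans (h0 0)
  have : ‖comps b F‖ ≤ C := (pi_norm_le_iff_of_nonneg hC).2 fun o => by
    cases o with
    | none => exact h.norm_bcf_le hK h0
    | some i => exact (h.pd b i).norm_bcf_le hK (h1 i)
  exact ((jetL n μ Ω hK).le_opNorm _).trans (mul_le_mul_of_nonneg_left this (norm_nonneg _))

/-- Integration by parts against elements of `V`. -/
lemma Test.dualOf_pd {μ : Measure E} [μ.IsAddHaarMeasure] {b : OrthonormalBasis (Fin n) ℝ E} {Ω D K : Set E} {F : E → ℝ} (h : Test K F) (hK : IsCompact K)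
    (hΩ : K ⊆ Ω) (i : Fin n) :
    dualOf μ b Ω D none (cut μ Ω hK (bcf (Pool.Agent.MP_954c34_an.pd b i F))) =
      -dualOf μ b Ω D (some i) (cut μ Ω hK (bcf F)) := by
  set a := cut μ Ω hK (bcf (Pool.Agent.MP_954c34_an.pd b i F)) with ha
  set c := cut μ Ω hK (bcf F) with hb
  set L : Jet n μ Ω →L[ℂ] ℂ :=
    (innerSL ℂ a).comp (PiLp.proj 2 (fun _ : Option (Fin n) => L2 μ Ω) none) +
      (innerSL ℂ c).comp (PiLp.proj 2 (fun _ : Option (Fin n) => L2 μ Ω) (some i)) with hL
  have hker : formDomain μ b Ω D ≤ LinearMap.ker (L : Jet n μ Ω →ₗ[ℂ] ℂ) := by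
    refine Submodule.topologicalClosure_minimal _ (Submodule.span_le.2 ?_) L.isClosed_ker
    rintro w ⟨φ, hφ, hφc, -, h0, h1⟩
    have hφd : Differentiable ℝ φ := hφ.differentiable (by simp)
    have hφ' : Continuous (coordDeriv b i φ) :=
      (hφ.continuous_fderiv (by simp)).clm_apply continuous_const
    have e1 : ⟪a, w none⟫_ℂ = ∫ x, Pool.Agent.MP_954c34_an.pd b i F x • φ x ∂μ := by
      rw [← setIntegral_eq_integral_of_forall_compl_eq_zero (s := Ω), L2.inner_def]
      · refine integral_congr_ae ?_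
        filter_upwards [(h.pd b i).coeFn_cut μ Ω hK, h0] with x h2 h3
        rw [ha, h2, h3]
        simp [mul_comm]
      · intro x hx
        rw [(h.pd b i).eq_zero (fun h' => hx (hΩ h')), zero_smul]
    have e2 : ⟪c, w (some i)⟫_ℂ = ∫ x, F x • coordDeriv b i φ x ∂μ := by
      rw [← setIntegral_eq_integral_of_forall_compl_eq_zero (s := Ω), L2.inner_def]
      · refine integral_congr_ae ?_
        filter_upwards [h.coeFn_cut μ Ω hK, h1 i] with x h2 h3
        rw [hb, h2, h3]
        simp [mul_comm]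
      · intro x hx
        rw [h.eq_zero (fun h' => hx (hΩ h')), zero_smul]
    have e3 := integral_smul_fderiv_eq_neg_fderiv_smul_of_integrable (μ := μ) (f := F)
      (g := φ) (v := b i)
      (((h.pd b i).smooth.continuous.smul hφ.continuous).integrable_of_hasCompactSupport
        hφc.smul_left)
      ((h.smooth.continuous.smul hφ').integrable_of_hasCompactSupport (h.compact hK).smul_right)
      ((h.smooth.continuous.smul hφ.continuous).integrable_of_hasCompactSupport hφc.smul_left)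
      (fun x _ => h.differentiable x) (fun x _ => hφd x)
    change ⟪a, w none⟫_ℂ + ⟪c, w (some i)⟫_ℂ = 0
    rw [e1, e2]
    unfold coordDeriv Pool.Agent.MP_954c34_an.pd
    rw [e3]
    simp
  ext v
  have hv : ⟪a, comp μ b Ω D none v⟫_ℂ + ⟪c, comp μ b Ω D (some i) v⟫_ℂ = 0 := hker v.2
  have := congrArg conj hv
  rw [map_add, inner_conj_symm, inner_conj_symm, map_zero] at this
  rw [neg_apply, dualOf_apply, dualOf_apply]
  exact eq_neg_of_add_eq_zero_left this

end Pool.Agent.MP_954c34_an
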