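import Mathlib

open MeasureTheory Set Filter Topology

noncomputable section

namespace Pool.Agent.MP_954c34_an

variable {X Y : Type*} [NormedAddCommGroup X] [NormedSpace ℝ X] [NormedAddCommGroup Y]
  [NormedSpace ℝ Y]

/-- One term of the lacunary series. -/
def waveTerm (a b : ℕ → X) (k : ℕ) (t : ℝ) : X :=
  Real.sin (4 ^ k * t) • a k + Real.cos (4 ^ k * t) • b k

/-- The lacunary series. -/
def wave (a b : ℕ → X) (t : ℝ) : X := ∑' k, waveTerm a b k t

lemma norm_waveTerm_le (a b : ℕ → X) (k : ℕ) (t : ℝ) :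
    ‖waveTerm a b k t‖ ≤ ‖a k‖ + ‖b k‖ := by
  unfold waveTerm
  refine (norm_add_le _ _).trans (add_le_add ?_ ?_)
  · rw [norm_smul]
    exact mul_le_of_le_one_left (norm_nonneg _) (Real.abs_sin_le_one _)
  · rw [norm_smul]
    exact mul_le_of_le_one_left (norm_nonneg _) (Real.abs_cos_le_one _)

lemma continuous_waveTerm (a b : ℕ → X) (k : ℕ) : Continuous (waveTerm a b k) := by
  unfold waveTerm
  fun_prop

lemma summable_norm_waveTerm {a b : ℕ → X} (ha : Summable fun k => ‖a k‖)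
    (hb : Summable fun k => ‖b k‖) (t : ℝ) : Summable fun k => ‖waveTerm a b k t‖ :=
  Summable.of_nonneg_of_le (fun _ => norm_nonneg _) (fun k => norm_waveTerm_le a b k t) (ha.add hb)

lemma hasSum_wave [CompleteSpace X] {a b : ℕ → X} (ha : Summable fun k => ‖a k‖)
    (hb : Summable fun k => ‖b k‖) (t : ℝ) :
    HasSum (fun k => waveTerm a b k t) (wave a b t) :=
  (summable_norm_waveTerm ha hb t).of_norm.hasSum

lemma continuous_wave [CompleteSpace X] {a b : ℕ → X} (ha : Summable fun k => ‖a k‖)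
    (hb : Summable fun k => ‖b k‖) : Continuous (wave a b) :=
  continuous_tsum (continuous_waveTerm a b) (ha.add hb) (norm_waveTerm_le a b)

lemma map_wave [CompleteSpace X] (L : X →L[ℝ] Y) {a b : ℕ → X} (ha : Summable fun k => ‖a k‖)
    (hb : Summable fun k => ‖b k‖) (t : ℝ) :
    L (wave a b t) = wave (fun k => L (a k)) (fun k => L (b k)) t := by
  have h := (hasSum_wave ha hb t).mapL L
  have h2 : (fun k => L (waveTerm a b k t)) =
      fun k => waveTerm (fun k => L (a k)) (fun k => L (b k)) k t := by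
    funext k
    simp [waveTerm]
  rw [h2] at h
  exact h.tsum_eq.symm

lemma summable_of_le_half_pow {u : ℕ → ℝ} {C : ℝ} (h0 : ∀ k, 0 ≤ u k)
    (h : ∀ k, u k ≤ C * (1 / 2) ^ k) : Summable u :=
  Summable.of_nonneg_of_le h0 h (summable_geometric_two.mul_left C)

lemma norm_wave_le [CompleteSpace X] {a b : ℕ → X} {C : ℝ}
    (ha : ∀ k, ‖a k‖ ≤ C * (1 / 2) ^ k) (hb : ∀ k, ‖b k‖ ≤ C * (1 / 2) ^ k) (t : ℝ) :
    ‖wave a b t‖ ≤ 4 * C := by
  have hs : HasSum (fun k : ℕ => 2 * C * (1 / 2 : ℝ) ^ k) (2 * C * 2) :=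
    hasSum_geometric_two.mul_left (2 * C)
  have := tsum_of_norm_bounded hs (f := fun k => waveTerm a b k t) (fun k => by
    have := norm_waveTerm_le a b k t
    have := ha k
    have := hb k
    linarith)
  unfold wave
  linarith

lemma min_le_telescope {x : ℝ} (hx : 0 < x) :
    min (2 / x) x ≤ 12 * ((2 * x) / (1 + 2 * x) - x / (1 + x)) := by
  have h1 : (2 * x) / (1 + 2 * x) - x / (1 + x) = x / ((1 + x) * (1 + 2 * x)) := by
    field_simp
    ring
  rw [h1, ← mul_div_assoc, le_div_iff₀ (by positivity)]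
  rcases le_total x (3 / 2) with h | h
  · have : min (2 / x) x ≤ x := min_le_right _ _
    calc min (2 / x) x * ((1 + x) * (1 + 2 * x)) ≤ x * ((1 + x) * (1 + 2 * x)) := by gcongr
      _ ≤ x * ((5 / 2) * 4) := by gcongr <;> linarith
      _ ≤ 12 * x := by linarith
  · have : min (2 / x) x ≤ 2 / x := min_le_left _ _
    calc min (2 / x) x * ((1 + x) * (1 + 2 * x)) ≤ 2 / x * ((1 + x) * (1 + 2 * x)) := by gcongr
      _ ≤ 2 / x * (6 * x ^ 2) :=
          mul_le_mul_of_nonneg_left (by nlinarith) (by positivity)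
      _ = 12 * x := by field_simp; ring

lemma abs_sin_sub_le (u v : ℝ) : |Real.sin u - Real.sin v| ≤ min 2 |u - v| := by
  refine le_min ?_ (Real.abs_sin_sub_sin_le u v)
  have := Real.abs_sin_le_one u
  have := Real.abs_sin_le_one v
  have := abs_sub (Real.sin u) (Real.sin v)
  linarith

lemma abs_cos_sub_le (u v : ℝ) : |Real.cos u - Real.cos v| ≤ min 2 |u - v| := by
  refine le_min ?_ (Real.abs_cos_sub_cos_le u v)
  have := Real.abs_cos_le_one u
  have := Real.abs_cos_le_one v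
  have := abs_sub (Real.cos u) (Real.cos v)
  linarith

lemma norm_wave_sub_le [CompleteSpace X] {a b : ℕ → X} {C : ℝ}
    (ha : ∀ k, ‖a k‖ ≤ C * (1 / 2) ^ k) (hb : ∀ k, ‖b k‖ ≤ C * (1 / 2) ^ k) (t s : ℝ) :
    ‖wave a b t - wave a b s‖ ≤ 24 * C * √|t - s| := by
  have hC : 0 ≤ C := by simpa using (norm_nonneg _).trans (ha 0)
  rcases eq_or_ne t s with rfl | hts
  · simp
  have hsa := summable_of_le_half_pow (fun _ => norm_nonneg _) ha
  have hsb := summable_of_le_half_pow (fun _ => norm_nonneg _) hb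
  set d := √|t - s| with hd
  have hdpos : 0 < d := Real.sqrt_pos.2 (abs_pos.2 (sub_ne_zero.2 hts))
  have hd2 : d ^ 2 = |t - s| := Real.sq_sqrt (abs_nonneg _)
  have hsum := (hasSum_wave hsa hsb t).sub (hasSum_wave hsa hsb s)
  set h : ℕ → ℝ := fun k => (2 ^ k * d) / (1 + 2 ^ k * d) with hh
  have hterm : ∀ k, ‖waveTerm a b k t - waveTerm a b k s‖ ≤ 24 * C * d * (h (k + 1) - h k) := by
    intro k
    have hx : 0 < (2 : ℝ) ^ k * d := by positivity
    have e1 : waveTerm a b k t - waveTerm a b k s =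
        (Real.sin (4 ^ k * t) - Real.sin (4 ^ k * s)) • a k +
          (Real.cos (4 ^ k * t) - Real.cos (4 ^ k * s)) • b k := by
      simp only [waveTerm, sub_smul]
      abel
    have e2 : |(4 : ℝ) ^ k * t - 4 ^ k * s| = (2 ^ k * d) ^ 2 := by
      rw [← mul_sub, abs_mul, abs_of_pos (by positivity : (0 : ℝ) < 4 ^ k), mul_pow, hd2,
        ← pow_mul, mul_comm k 2, pow_mul]
      norm_num
    have e3 : min 2 ((2 ^ k * d) ^ 2) * (1 / 2 : ℝ) ^ k = d * min (2 / (2 ^ k * d)) (2 ^ k * d) := by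
      rw [min_mul_of_nonneg _ _ (by positivity), mul_min_of_nonneg _ _ hdpos.le]
      congr 1
      · field_simp
        simp
      · rw [one_div, inv_pow]
        field_simp
    have e4 := min_le_telescope hx
    have e5 : h (k + 1) - h k = (2 * (2 ^ k * d)) / (1 + 2 * (2 ^ k * d)) -
        (2 ^ k * d) / (1 + 2 ^ k * d) := by
      simp only [hh, pow_succ]
      ring_nf
    have s1 := abs_sin_sub_le (4 ^ k * t) (4 ^ k * s)
    have s2 := abs_cos_sub_le (4 ^ k * t) (4 ^ k * s)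
    rw [e2] at s1 s2
    have hm : 0 ≤ min 2 ((2 ^ k * d) ^ 2) := le_min (by norm_num) (by positivity)
    calc ‖waveTerm a b k t - waveTerm a b k s‖
        ≤ min 2 ((2 ^ k * d) ^ 2) * (C * (1 / 2) ^ k) +
          min 2 ((2 ^ k * d) ^ 2) * (C * (1 / 2) ^ k) := by
          rw [e1]
          refine (norm_add_le _ _).trans (add_le_add ?_ ?_)
          · rw [norm_smul, Real.norm_eq_abs]
            exact mul_le_mul s1 (ha k) (norm_nonneg _) hm
          · rw [norm_smul, Real.norm_eq_abs]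
            exact mul_le_mul s2 (hb k) (norm_nonneg _) hm
      _ = 2 * C * (min 2 ((2 ^ k * d) ^ 2) * (1 / 2 : ℝ) ^ k) := by ring
      _ = 2 * C * (d * min (2 / (2 ^ k * d)) (2 ^ k * d)) := by rw [e3]
      _ ≤ 2 * C * (d * (12 * (h (k + 1) - h k))) := by rw [e5]; gcongr
      _ = 24 * C * d * (h (k + 1) - h k) := by ring
  refine le_of_tendsto' (hsum.tendsto_sum_nat.norm) (fun N => ?_)
  calc ‖∑ k ∈ Finset.range N, (waveTerm a b k t - waveTerm a b k s)‖
      ≤ ∑ k ∈ Finset.range N, 24 * C * d * (h (k + 1) - h k) :=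
        (norm_sum_le _ _).trans (Finset.sum_le_sum fun k _ => hterm k)
    _ = 24 * C * d * (h N - h 0) := by rw [← Finset.mul_sum, Finset.sum_range_sub]
    _ ≤ 24 * C * d * 1 := by
        gcongr
        have h1 : h N ≤ 1 := by
          simp only [hh]
          rw [div_le_one (by positivity)]
          linarith
        have h2 : 0 ≤ h 0 := by simp only [hh]; positivity
        linarith
    _ = 24 * C * d := by ring

lemma hasDerivAt_waveTerm (a b : ℕ → X) (k : ℕ) (t : ℝ) :
    HasDerivAt (waveTerm a b k)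
      (waveTerm (fun k => (-(4 : ℝ) ^ k) • b k) (fun k => ((4 : ℝ) ^ k) • a k) k t) t := by
  have h0 : HasDerivAt (fun t : ℝ => (4 : ℝ) ^ k * t) (4 ^ k) t := by
    simpa using (hasDerivAt_id t).const_mul ((4 : ℝ) ^ k)
  have h1 := (h0.sin.smul_const (a k)).add (h0.cos.smul_const (b k))
  have e : waveTerm (fun k => (-(4 : ℝ) ^ k) • b k) (fun k => ((4 : ℝ) ^ k) • a k) k t =
      (Real.cos (4 ^ k * t) * 4 ^ k) • a k + (-Real.sin (4 ^ k * t) * 4 ^ k) • b k := by
    simp only [waveTerm, smul_smul]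
    rw [add_comm]
    congr 2
    ring
  rw [e]
  exact h1

lemma hasDerivAt_wave [CompleteSpace X] {a b : ℕ → X}
    (ha : Summable fun k => (4 : ℝ) ^ k * ‖a k‖) (hb : Summable fun k => (4 : ℝ) ^ k * ‖b k‖)
    (t : ℝ) :
    HasDerivAt (wave a b)
      (wave (fun k => (-(4 : ℝ) ^ k) • b k) (fun k => ((4 : ℝ) ^ k) • a k) t) t := by
  have hle : ∀ (c : ℕ → X) (k : ℕ), ‖c k‖ ≤ (4 : ℝ) ^ k * ‖c k‖ := fun c k =>
    le_mul_of_one_le_left (norm_nonneg _) (one_le_pow₀ (by norm_num))
  have ha' : Summable fun k => ‖a k‖ :=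
    Summable.of_nonneg_of_le (fun _ => norm_nonneg _) (hle a) ha
  have hb' : Summable fun k => ‖b k‖ :=
    Summable.of_nonneg_of_le (fun _ => norm_nonneg _) (hle b) hb
  refine hasDerivAt_tsum (hb.add ha) (hasDerivAt_waveTerm a b) (fun k y => ?_)
    (hasSum_wave ha' hb' 0).summable t
  refine (norm_waveTerm_le _ _ k y).trans (le_of_eq ?_)
  simp [norm_smul]

end Pool.Agent.MP_954c34_an
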