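import Pool.Agent.MP_954c34_an.Primitive
import Pool.Agent.MP_954c34_an.Wave

open MeasureTheory Set Filter Topology Complex
open scoped ContDiff

noncomputable section

namespace Pool.Agent.MP_954c34_an

variable {X : Type} [NormedAddCommGroup X] [NormedSpace ℂ X]

/-- `exp (i x)`. -/
def cis (x : ℝ) : ℂ := cexp (x * I)

lemma continuous_cis : Continuous cis := by
  unfold cis
  fun_prop

lemma cis_add (x y : ℝ) : cis (x + y) = cis x * cis y := by
  simp [cis, add_mul, exp_add]

lemma cis_eq (x : ℝ) : cis x = Real.cos x + Real.sin x * I := by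
  simp [cis, exp_mul_I]

lemma norm_cis (x : ℝ) : ‖cis x‖ = 1 := norm_exp_ofReal_mul_I x

lemma tendsto_setIntegral_cis [CompleteSpace X] (s : Set ℝ) (hs : MeasurableSet s) (F : ℝ → X) :
    Tendsto (fun l : ℝ => ∫ t in s, cis (l * t) • F t) (cocompact ℝ) (𝓝 0) := by
  have h := Real.tendsto_integral_exp_smul_cocompact (s.indicator F)
  have hc : Tendsto (fun l : ℝ => -(2 * Real.pi)⁻¹ * l) (cocompact ℝ) (cocompact ℝ) :=
    (Homeomorph.mulLeft₀ (-(2 * Real.pi)⁻¹) (by simp [Real.pi_ne_zero])).toCocompactMap.cocompact_tendsto'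
  refine (h.comp hc).congr fun l => ?_
  simp only [Function.comp]
  rw [← integral_indicator hs]
  congr 1
  funext t
  by_cases ht : t ∈ s
  · simp only [indicator_of_mem ht, Circle.smul_def, Real.fourierChar_apply, cis]
    congr 3
    field_simp
  · simp [indicator_of_notMem ht]

lemma tendsto_smul_setIntegral_cis [CompleteSpace X] {T : ℝ} {u γ : ℝ → X}
    (h : HasWeakDeriv T u γ) (hu : IntegrableOn u (Ioo 0 T)) (hγ : IntegrableOn γ (Ioo 0 T))
    {ρ : ℝ → ℝ} (hρ : ContDiff ℝ ∞ ρ) (hρc : HasCompactSupport ρ) (hρs : tsupport ρ ⊆ Ioo 0 T) :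
    Tendsto (fun l : ℝ => (l : ℂ) • ∫ t in Ioo 0 T, cis (l * t) • ρ t • u t) (cocompact ℝ)
      (𝓝 0) := by
  have h1 := tendsto_setIntegral_cis (Ioo 0 T) measurableSet_Ioo (fun t => deriv ρ t • u t)
  have h2 := tendsto_setIntegral_cis (Ioo 0 T) measurableSet_Ioo (fun t => ρ t • γ t)
  have h3 := (h1.add h2).const_smul I
  simp only [add_zero, smul_zero] at h3
  refine h3.congr fun l => ?_
  have hρd : ∀ t, HasDerivAt ρ (deriv ρ t) t := fun t =>
    (hρ.differentiable (by simp) t).hasDerivAt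
  have hρ' : Continuous (deriv ρ) := hρ.continuous_deriv (by simp)
  have hρ0 : Continuous ρ := hρ.continuous
  have hl : ∀ t, HasDerivAt (fun t : ℝ => l * t) l t := fun t => by
    simpa using (hasDerivAt_id t).const_mul l
  have hc := h (fun t => ρ t * Real.cos (l * t)) (hρ.mul (by fun_prop)) hρc.mul_right
    ((tsupport_mul_subset_left).trans hρs)
  have hs := h (fun t => ρ t * Real.sin (l * t)) (hρ.mul (by fun_prop)) hρc.mul_right
    ((tsupport_mul_subset_left).trans hρs)
  have dc : ∀ t, deriv (fun t => ρ t * Real.cos (l * t)) t =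
      deriv ρ t * Real.cos (l * t) + ρ t * (-Real.sin (l * t) * l) := fun t =>
    ((hρd t).mul (hl t).cos).deriv
  have ds : ∀ t, deriv (fun t => ρ t * Real.sin (l * t)) t =
      deriv ρ t * Real.sin (l * t) + ρ t * (Real.cos (l * t) * l) := fun t =>
    ((hρd t).mul (hl t).sin).deriv
  simp only [dc, ds] at hc hs
  have i1 : IntegrableOn (fun t => (deriv ρ t * Real.cos (l * t) +
      ρ t * (-Real.sin (l * t) * l)) • u t) (Ioo 0 T) :=
    integrableOn_smul_of_continuous (by fun_prop) hu
  have i2 : IntegrableOn (fun t => I • (deriv ρ t * Real.sin (l * t) +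
      ρ t * (Real.cos (l * t) * l)) • u t) (Ioo 0 T) :=
    (integrableOn_smul_of_continuous (φ := fun t => deriv ρ t * Real.sin (l * t) +
      ρ t * (Real.cos (l * t) * l)) (by fun_prop) hu).smul I
  have i3 : IntegrableOn (fun t => (ρ t * Real.cos (l * t)) • γ t) (Ioo 0 T) :=
    integrableOn_smul_of_continuous (by fun_prop) hγ
  have i4 : IntegrableOn (fun t => I • (ρ t * Real.sin (l * t)) • γ t) (Ioo 0 T) :=
    (integrableOn_smul_of_continuous (φ := fun t => ρ t * Real.sin (l * t))
      (by fun_prop) hγ).smul I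
  have hcis : Continuous fun t : ℝ => cis (l * t) := continuous_cis.comp (by fun_prop)
  have i5 : IntegrableOn (fun t => cis (l * t) • deriv ρ t • u t) (Ioo 0 T) :=
    integrableOn_smul_of_continuous hcis (integrableOn_smul_of_continuous hρ' hu)
  have i6 : IntegrableOn (fun t => (I * l) • cis (l * t) • ρ t • u t) (Ioo 0 T) :=
    (integrableOn_smul_of_continuous hcis (integrableOn_smul_of_continuous hρ0 hu)).smul (I * l)
  have e1 : (∫ t in Ioo 0 T, cis (l * t) • deriv ρ t • u t) +
      (I * l) • ∫ t in Ioo 0 T, cis (l * t) • ρ t • u t =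
      (∫ t in Ioo 0 T, (deriv ρ t * Real.cos (l * t) + ρ t * (-Real.sin (l * t) * l)) • u t) +
      I • ∫ t in Ioo 0 T, (deriv ρ t * Real.sin (l * t) + ρ t * (Real.cos (l * t) * l)) • u t := by
    rw [← integral_smul, ← integral_smul, ← integral_add i5 i6, ← integral_add i1 i2]
    refine integral_congr_ae (Eventually.of_forall fun t => ?_)
    simp only [← Complex.coe_smul, smul_smul, ← add_smul, cis_eq]
    congr 1
    push_cast
    linear_combination (l * ρ t * Complex.sin (l * t)) * I_mul_I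
  have e2 : (∫ t in Ioo 0 T, cis (l * t) • ρ t • γ t) =
      (∫ t in Ioo 0 T, (ρ t * Real.cos (l * t)) • γ t) +
      I • ∫ t in Ioo 0 T, (ρ t * Real.sin (l * t)) • γ t := by
    rw [← integral_smul, ← integral_add i3 i4]
    refine integral_congr_ae (Eventually.of_forall fun t => ?_)
    simp only [← Complex.coe_smul, smul_smul, ← add_smul, cis_eq]
    congr 1
    push_cast
    ring
  rw [hc, hs, smul_neg, ← neg_add, ← e2] at e1
  have e3 : (∫ t in Ioo 0 T, cis (l * t) • deriv ρ t • u t) +
      (∫ t in Ioo 0 T, cis (l * t) • ρ t • γ t) =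
      -((I * l) • ∫ t in Ioo 0 T, cis (l * t) • ρ t • u t) := by
    rw [eq_neg_iff_add_eq_zero, add_right_comm, e1]
    simp
  rw [e3, smul_neg, smul_smul, ← neg_smul]
  congr 1
  linear_combination (-(l : ℂ)) * I_mul_I

lemma waveTerm_eq_cis (a b : ℕ → X) (k : ℕ) (t : ℝ) :
    waveTerm a b k t = cis (4 ^ k * t) • ((1 / 2 : ℂ) • (b k - I • a k)) +
      cis (-(4 ^ k * t)) • ((1 / 2 : ℂ) • (b k + I • a k)) := by
  simp only [waveTerm, ← Complex.coe_smul, cis_eq, Real.cos_neg, Real.sin_neg]
  match_scalars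
  · linear_combination (Complex.sin (4 ^ k * t)) * I_mul_I
  · ring

lemma pow_four_le_abs_sub {j k : ℕ} (h : k ≠ j) : (4 : ℝ) ^ j ≤ 2 * |-(4 : ℝ) ^ j + 4 ^ k| := by
  rcases lt_or_gt_of_ne h with h | h
  · have : (4 : ℝ) ^ (k + 1) ≤ 4 ^ j := pow_le_pow_right₀ (by norm_num) h
    rw [pow_succ] at this
    have h0 : (0 : ℝ) < 4 ^ k := by positivity
    rw [abs_of_nonpos (by linarith)]
    linarith
  · have : (4 : ℝ) ^ (j + 1) ≤ 4 ^ k := pow_le_pow_right₀ (by norm_num) h
    rw [pow_succ] at this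
    have h0 : (0 : ℝ) < 4 ^ j := by positivity
    rw [abs_of_nonneg (by linarith)]
    linarith

/-- If `t • (g + wave a b t)` has an integrable weak derivative then the coefficients decay
faster than `4 ^ (-j)`. -/
lemma tendsto_of_hasWeakDeriv [CompleteSpace X] {T : ℝ} (hT : 0 < T) (g : X) {a b : ℕ → X}
    (ha : Summable fun k => ‖a k‖) (hb : Summable fun k => ‖b k‖) {γ : ℝ → X}
    (hγ : IntegrableOn γ (Ioo 0 T)) (h : HasWeakDeriv T (fun t => t • (g + wave a b t)) γ) :
    Tendsto (fun j : ℕ => (4 : ℝ) ^ j * ‖b j - I • a j‖) atTop (𝓝 0) := by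
  set ρ : ℝ → ℝ := ⇑(midBump hT) with hρdef
  have hρ : ContDiff ℝ ∞ ρ := (midBump hT).contDiff
  have hρ0 : Continuous ρ := hρ.continuous
  have hρc : HasCompactSupport ρ := (midBump hT).hasCompactSupport
  have hρs : tsupport ρ ⊆ Ioo 0 T := by
    rw [hρdef, ContDiffBump.tsupport_eq]
    exact closedBall_midBump hT
  have hcont : Continuous fun t : ℝ => t • (g + wave a b t) :=
    continuous_id.smul (continuous_const.add (continuous_wave ha hb))
  have hS := tendsto_smul_setIntegral_cis h (memL2_of_continuous hcont).integrableOn hγ hρ hρc hρs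
  set F : ℝ → ℂ := fun l => ∫ t in Ioo 0 T, cis (l * t) • ρ t • (t : ℂ) with hF
  have hFlim : Tendsto (fun l : ℝ => (l : ℂ) • F l) (cocompact ℝ) (𝓝 0) := by
    have hid : HasWeakDeriv T (fun t : ℝ => (t : ℂ)) (fun _ => 1) :=
      hasWeakDeriv_of_hasDerivAt hT (fun t => by simpa using (hasDerivAt_id t).ofReal_comp)
        continuous_const
    exact tendsto_smul_setIntegral_cis hid (memL2_of_continuous continuous_ofReal).integrableOn
      (memL2_of_continuous continuous_const).integrableOn hρ hρc hρs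
  have hF0 : F 0 ≠ 0 := by
    have e : F 0 = ((∫ t in Ioo 0 T, ρ t * t : ℝ) : ℂ) := by
      rw [← integral_complex_ofReal]
      simp [hF, cis]
    rw [e, ofReal_ne_zero]
    apply ne_of_gt
    rw [setIntegral_pos_iff_support_of_nonneg_ae]
    · refine lt_of_lt_of_le ?_ (measure_mono (s := Metric.ball (T / 2) (midBump hT).rOut) ?_)
      · exact Metric.measure_ball_pos _ _ (midBump hT).rOut_pos
      · intro t ht
        have ht' := closedBall_midBump hT (Metric.ball_subset_closedBall ht)
        exact ⟨(mul_pos ((midBump hT).pos_of_mem_ball ht) ht'.1).ne', ht'⟩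
    · filter_upwards [ae_restrict_mem measurableSet_Ioo] with t ht
      exact mul_nonneg ((midBump hT).nonneg) ht.1.le
    · exact (memL2_of_continuous (hρ0.mul continuous_id)).integrableOn
  set p : ℕ → X := fun k => (1 / 2 : ℂ) • (b k - I • a k) with hp
  set q : ℕ → X := fun k => (1 / 2 : ℂ) • (b k + I • a k) with hq
  have hpn : ∀ k, ‖p k‖ ≤ ‖a k‖ + ‖b k‖ := fun k => by
    have := norm_sub_le (b k) (I • a k)
    simp only [hp, norm_smul, norm_I, one_mul, norm_div, norm_one, Complex.norm_ofNat] at this ⊢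
    linarith [norm_nonneg (a k), norm_nonneg (b k)]
  have hqn : ∀ k, ‖q k‖ ≤ ‖a k‖ + ‖b k‖ := fun k => by
    have := norm_add_le (b k) (I • a k)
    simp only [hq, norm_smul, norm_I, one_mul, norm_div, norm_one, Complex.norm_ofNat] at this ⊢
    linarith [norm_nonneg (a k), norm_nonneg (b k)]
  have hker : ∀ l : ℝ, Continuous fun t : ℝ => cis (l * t) • ρ t • (t : ℂ) := fun l =>
    (continuous_cis.comp (by fun_prop)).smul (hρ0.smul continuous_ofReal)
  have hkeri : ∀ l : ℝ, IntegrableOn (fun t : ℝ => cis (l * t) • ρ t • (t : ℂ)) (Ioo 0 T) :=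
    fun l => (memL2_of_continuous (hker l)).integrableOn
  -- expansion of the Fourier coefficient
  have hexp : ∀ l : ℝ, HasSum (fun k : ℕ => F (l + 4 ^ k) • p k + F (l - 4 ^ k) • q k)
      ((∫ t in Ioo 0 T, cis (l * t) • ρ t • t • (g + wave a b t)) - F l • g) := by
    intro l
    have hint : ∀ k, Integrable (fun t : ℝ => (cis (l * t) • ρ t • (t : ℂ)) • waveTerm a b k t)
        (volume.restrict (Ioo 0 T)) := fun k =>
      (memL2_of_continuous ((hker l).smul (continuous_waveTerm a b k))).integrableOn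
    have hsum : Summable fun k => ∫ t in Ioo 0 T,
        ‖(cis (l * t) • ρ t • (t : ℂ)) • waveTerm a b k t‖ := by
      refine Summable.of_nonneg_of_le (fun k => integral_nonneg fun t => norm_nonneg _)
        (fun k => ?_) ((ha.add hb).mul_left (∫ t in Ioo 0 T, ‖cis (l * t) • ρ t • (t : ℂ)‖))
      rw [← integral_mul_const]
      refine integral_mono (hint k).norm ((hkeri l).norm.mul_const _) fun t => ?_
      simp only [norm_smul _ (waveTerm a b k t)]
      exact mul_le_mul_of_nonneg_left (norm_waveTerm_le a b k t) (norm_nonneg _)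
    have h1 := hasSum_integral_of_summable_integral_norm hint hsum
    convert h1 using 1
    · funext k
      simp only [hF]
      rw [← integral_smul_const, ← integral_smul_const,
        ← integral_add ((hkeri _).smul_const _) ((hkeri _).smul_const _)]
      refine integral_congr_ae (Eventually.of_forall fun t => ?_)
      simp only [waveTerm_eq_cis, smul_add, smul_smul, hp, hq, add_mul, cis_add,
        sub_eq_add_neg, neg_mul, smul_eq_mul, real_smul]
      module
    · simp only [hF]
      rw [← integral_smul_const, ← integral_sub _ ((hkeri _).smul_const _)]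
      · refine integral_congr_ae (Eventually.of_forall fun t => ?_)
        simp only
        rw [(hasSum_wave ha hb t).summable.tsum_const_smul, (hasSum_wave ha hb t).tsum_eq]
        simp only [← Complex.coe_smul, smul_smul, smul_eq_mul, smul_add]
        module
      · exact (memL2_of_continuous ((continuous_cis.comp (by fun_prop)).smul
          (hρ0.smul hcont))).integrableOn
  have hpow : Tendsto (fun j : ℕ => -(4 : ℝ) ^ j) atTop (cocompact ℝ) :=
    (tendsto_neg_atTop_atBot.comp
      (tendsto_pow_atTop_atTop_of_one_lt (by norm_num : (1 : ℝ) < 4))).mono_right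
      atBot_le_cocompact
  -- the error term
  set err : ℕ → ℕ → X := fun j k =>
    (if k = j then 0 else ((-(4 : ℝ) ^ j : ℝ) : ℂ) • F (-4 ^ j + 4 ^ k)) • p k +
      (((-(4 : ℝ) ^ j : ℝ) : ℂ) • F (-4 ^ j - 4 ^ k)) • q k with herr
  have herrsum : ∀ j : ℕ, HasSum (err j)
      (((-(4 : ℝ) ^ j : ℝ) : ℂ) • (∫ t in Ioo 0 T,
        cis (-4 ^ j * t) • ρ t • t • (g + wave a b t)) -
        (((-(4 : ℝ) ^ j : ℝ) : ℂ) • F (-4 ^ j)) • g - (((-(4 : ℝ) ^ j : ℝ) : ℂ) • F 0) • p j) := by
    intro j
    have h1 := ((hexp (-4 ^ j)).const_smul (((-(4 : ℝ) ^ j : ℝ) : ℂ))).sub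
      (hasSum_ite_eq j ((((-(4 : ℝ) ^ j : ℝ) : ℂ) • F 0) • p j))
    convert h1 using 1
    · funext k
      simp only [herr]
      split_ifs with hk
      · subst hk
        simp only [neg_add_cancel, smul_add, smul_smul, smul_eq_mul]
        module
      · simp only [smul_add, smul_smul, smul_eq_mul]
        module
    · simp only [smul_sub, smul_smul, smul_eq_mul]
  have herrlim : Tendsto (fun j => ∑' k, err j k) atTop (𝓝 0) := by
    set S := ∑' k, (‖a k‖ + ‖b k‖) with hSdef
    have hS0 : 0 ≤ S := tsum_nonneg fun k => by positivity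
    rw [NormedAddGroup.tendsto_nhds_zero]
    intro ε hε
    set δ := ε / (4 * S + 1) with hδ
    have hδ0 : 0 < δ := by positivity
    have h1 := (NormedAddGroup.tendsto_nhds_zero.1 hFlim) δ hδ0
    obtain ⟨R, hR⟩ : ∃ R : ℝ, ∀ l : ℝ, R < |l| → ‖(l : ℂ) • F l‖ < δ := by
      rw [← Metric.cobounded_eq_cocompact,
        (Metric.hasBasis_cobounded_compl_closedBall (0 : ℝ)).eventually_iff] at h1
      obtain ⟨R, -, hR⟩ := h1
      exact ⟨R, fun l hl => hR (by simpa using hl)⟩
    filter_upwards [(tendsto_pow_atTop_atTop_of_one_lt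
      (by norm_num : (1 : ℝ) < 4)).eventually_gt_atTop (2 * R)] with j hj
    have hb2 : ∀ l : ℝ, (4 : ℝ) ^ j ≤ 2 * |l| → ‖((-(4 : ℝ) ^ j : ℝ) : ℂ) • F l‖ ≤ 2 * δ := by
      intro l hl
      have h2 := hR l (by linarith)
      rw [norm_smul, norm_real, Real.norm_eq_abs] at h2 ⊢
      rw [abs_neg, abs_of_pos (by positivity)]
      calc (4 : ℝ) ^ j * ‖F l‖ ≤ (2 * |l|) * ‖F l‖ := by gcongr
        _ = 2 * (|l| * ‖F l‖) := by ring
        _ ≤ 2 * δ := by linarith
    have hbound : ∀ k, ‖err j k‖ ≤ 4 * δ * (‖a k‖ + ‖b k‖) := by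
      intro k
      have e1 : ‖(if k = j then 0 else ((-(4 : ℝ) ^ j : ℝ) : ℂ) • F (-4 ^ j + 4 ^ k))‖ ≤ 2 * δ := by
        split_ifs with hk
        · simp only [norm_zero]
          positivity
        · exact hb2 _ (pow_four_le_abs_sub hk)
      have e2 : ‖((-(4 : ℝ) ^ j : ℝ) : ℂ) • F (-4 ^ j - 4 ^ k)‖ ≤ 2 * δ := by
        apply hb2
        have h4 : (0 : ℝ) < 4 ^ j := by positivity
        have h5 : (0 : ℝ) < 4 ^ k := by positivity
        rw [abs_of_nonpos (by linarith)]
        linarith
      calc ‖err j k‖ ≤ 2 * δ * (‖a k‖ + ‖b k‖) + 2 * δ * (‖a k‖ + ‖b k‖) := by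
            refine (norm_add_le _ _).trans (add_le_add ?_ ?_)
            · rw [norm_smul]
              exact mul_le_mul e1 (hpn k) (norm_nonneg _) (by positivity)
            · rw [norm_smul]
              exact mul_le_mul e2 (hqn k) (norm_nonneg _) (by positivity)
        _ = 4 * δ * (‖a k‖ + ‖b k‖) := by ring
    have h3 := tsum_of_norm_bounded ((ha.add hb).hasSum.mul_left (4 * δ)) hbound
    calc ‖∑' k, err j k‖ ≤ 4 * δ * S := h3
      _ < δ * (4 * S + 1) := by nlinarith
      _ = ε := by rw [hδ]; field_simp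
  have hmain : Tendsto (fun j : ℕ => (((-(4 : ℝ) ^ j : ℝ) : ℂ) • F 0) • p j) atTop (𝓝 0) := by
    have h1 := ((hS.comp hpow).sub ((hFlim.comp hpow).smul_const g)).sub herrlim
    simp only [zero_smul, sub_zero] at h1
    refine h1.congr fun j => ?_
    rw [(herrsum j).tsum_eq]
    simp only [Function.comp]
    abel
  have h2 := (hmain.norm.const_mul (2 / ‖F 0‖))
  simp only [norm_zero, mul_zero] at h2
  refine h2.congr fun j => ?_
  have : ‖F 0‖ ≠ 0 := norm_ne_zero_iff.2 hF0
  simp only [hp, norm_smul, norm_real, Real.norm_eq_abs, abs_neg, norm_div, norm_one,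
    Complex.norm_ofNat]
  rw [abs_of_pos (by positivity)]
  field_simp

end Pool.Agent.MP_954c34_an
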