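import Pool.Agent.MP_954c34_an.Operators
import Pool.Agent.MP_954c34_an.Energy

open MeasureTheory Set Filter Topology
open scoped ContDiff ComplexConjugate InnerProductSpace BoundedContinuousFunction Matrix

set_option maxSynthPendingDepth 3

noncomputable section

namespace Pool.Agent.MP_954c34_an

variable {E : Type} [NormedAddCommGroup E] [InnerProductSpace ℝ E] [FiniteDimensional ℝ E]
  [MeasurableSpace E] [BorelSpace E] {n : ℕ}

set_option linter.unusedSectionVars false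

/-- The real part of the duality pairing. -/
def rePairing (μ : Measure E) (b : OrthonormalBasis (Fin n) ℝ E) (Ω D : Set E) : Antidual μ b Ω D →L[ℝ] formDomain μ b Ω D →L[ℝ] ℝ :=
  LinearMap.mkContinuous₂
    (LinearMap.mk₂ ℝ (fun (g : Antidual μ b Ω D) (v : formDomain μ b Ω D) => (g v).re)
      (fun g g' v => by simp) (fun c g v => by simp) (fun g v v' => by simp)
      (fun c g v => by
        rw [← algebraMap_smul ℂ c v, map_smulₛₗ]
        simp))
    1 (fun g v => by
      rw [one_mul]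
      exact (Complex.abs_re_le_norm _).trans (g.le_opNorm v))

lemma rePairing_apply (μ : Measure E) (b : OrthonormalBasis (Fin n) ℝ E) (Ω D : Set E) (g : Antidual μ b Ω D) (v : formDomain μ b Ω D) :
    rePairing μ b Ω D g v = (g v).re := rfl

/-- The embedding of `V` into `V*`. -/
def embed (μ : Measure E) (b : OrthonormalBasis (Fin n) ℝ E) (Ω D : Set E) : formDomain μ b Ω D →L[ℝ] Antidual μ b Ω D :=
  ((dualOf μ b Ω D none).comp (comp μ b Ω D none)).restrictScalars ℝ

lemma embed_apply (μ : Measure E) (b : OrthonormalBasis (Fin n) ℝ E) (Ω D : Set E) (v : formDomain μ b Ω D) :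
    embed μ b Ω D v = toAntidual (toH μ b Ω D) (toH μ b Ω D v) := rfl

lemma embed_apply_apply (μ : Measure E) (b : OrthonormalBasis (Fin n) ℝ E) (Ω D : Set E) (u v : formDomain μ b Ω D) :
    embed μ b Ω D u v = ⟪toH μ b Ω D v, toH μ b Ω D u⟫_ℂ := rfl

lemma lions_unique {μ : Measure E} {b : OrthonormalBasis (Fin n) ℝ E} {Ω D : Set E} {T : ℝ} (hT : 0 < T)
    {𝔄 : ℝ → formDomain μ b Ω D →L[ℂ] Antidual μ b Ω D}
    (h𝔄 : ∀ t u, 0 ≤ (𝔄 t u u).re ∧ ((𝔄 t u u).re ≤ 0 → 𝔄 t u = 0)) {f : ℝ → L2 μ Ω}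
    {u v : ℝ → formDomain μ b Ω D} (hu : IsLionsSolution (toH μ b Ω D) T 𝔄 f u) (hv : IsLionsSolution (toH μ b Ω D) T 𝔄 f v) :
    (fun t => toH μ b Ω D (u t)) =ᵐ[volume.restrict (Ioo 0 T)] fun t => toH μ b Ω D (v t) := by
  obtain ⟨hu1, hu2, ⟨g₁, hg₁, hu3, hu4⟩, ⟨y₁, hy₁, hy₁', hy₁''⟩⟩ := hu
  obtain ⟨hv1, hv2, ⟨g₂, hg₂, hv3, hv4⟩, ⟨y₂, hy₂, hy₂', hy₂''⟩⟩ := hv
  set w : ℝ → formDomain μ b Ω D := fun t => u t - v t with hw
  set g : ℝ → Antidual μ b Ω D := fun t => g₁ t - g₂ t with hg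
  have hwL : MemL2 T w := MemLp.sub hu1 hv1
  have hgL : MemL2 T g := MemLp.sub hg₁ hg₂
  have e : (fun t => embed μ b Ω D (w t)) =
      fun t => toAntidual (toH μ b Ω D) (toH μ b Ω D (u t)) - toAntidual (toH μ b Ω D) (toH μ b Ω D (v t)) := by
    funext t
    rw [hw, map_sub, embed_apply, embed_apply]
  have hwd : HasWeakDeriv T (fun t => embed μ b Ω D (w t)) g := by
    rw [e]
    exact hu3.sub hv3 hu2.integrableOn hg₁.integrableOn hv2.integrableOn hg₂.integrableOn
  have hw0 : VanishesAtZero T (fun t => embed μ b Ω D (w t)) := by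
    rw [e]
    refine ⟨fun t => y₁ t - y₂ t, hy₁.sub hy₂, hy₁'.sub hy₂', by simp [hy₁'', hy₂'']⟩
  have hrep := ae_eq_primitive hT hgL.integrableOn hwd hw0
  have heq : ∀ᵐ t ∂(volume.restrict (Ioo 0 T)), g t = -𝔄 t (w t) := by
    filter_upwards [hu4, hv4] with t h1 h2
    rw [hg, hw, map_sub, eq_neg_iff_add_eq_zero]
    calc g₁ t - g₂ t + (𝔄 t (u t) - 𝔄 t (v t)) = (g₁ t + 𝔄 t (u t)) - (g₂ t + 𝔄 t (v t)) := by
          abel
      _ = 0 := by rw [h1, h2, sub_self]
  have hint : IntegrableOn (fun t => rePairing μ b Ω D (g t) (w t)) (Ioo 0 T) :=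
    memLp_one_iff_integrable.1 ((rePairing μ b Ω D).memLp_of_bilin 1 hgL hwL)
  have hzero : ∀ τ ∈ Ioo 0 T, ∫ s in Ioo 0 τ, g s = 0 := by
    intro τ hτ
    have hsub : Ioo 0 τ ⊆ Ioo 0 T := Ioo_subset_Ioo_right hτ.2.le
    have h1 := energy (rePairing μ b Ω D) (embed μ b Ω D)
      (fun a a' => by
        rw [rePairing_apply, rePairing_apply, embed_apply_apply, embed_apply_apply]
        exact inner_re_symm (𝕜 := ℂ) _ _)
      (fun a => by
        rw [rePairing_apply, embed_apply_apply]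
        exact inner_self_nonneg (𝕜 := ℂ))
      hτ.2 hwL hgL hrep
    have heq' := ae_restrict_of_ae_restrict_of_subset hsub heq
    have hnn : 0 ≤ᵐ[volume.restrict (Ioo 0 τ)] fun t => -rePairing μ b Ω D (g t) (w t) := by
      filter_upwards [heq'] with t ht
      rw [ht, rePairing_apply]
      simpa using (h𝔄 t (w t)).1
    have h2 := (integral_eq_zero_iff_of_nonneg_ae hnn (hint.mono_set hsub).neg).1
      (le_antisymm (by rw [integral_neg]; linarith) (integral_nonneg_of_ae hnn))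
    refine integral_eq_zero_of_ae ?_
    filter_upwards [heq', h2] with t ht h3
    rw [ht, rePairing_apply] at h3
    rw [ht, (h𝔄 t (w t)).2 (by simpa using h3.le)]
    simp
  filter_upwards [hrep, ae_restrict_mem measurableSet_Ioo] with t h1 h2
  rw [hzero t h2] at h1
  have h3 : ⟪toH μ b Ω D (w t), toH μ b Ω D (w t)⟫_ℂ = 0 := by
    rw [← embed_apply_apply, h1]
    simp
  rw [inner_self_eq_zero, hw, map_sub, sub_eq_zero] at h3
  exact h3

end Pool.Agent.MP_954c34_an
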