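import Pool.Agent.MP_954c34_an.Concrete

open MeasureTheory Set Filter Topology
open scoped ContDiff ComplexConjugate InnerProductSpace BoundedContinuousFunction Matrix

set_option maxSynthPendingDepth 3

noncomputable section

namespace Pool.Agent.MP_954c34_an

variable {E : Type} [NormedAddCommGroup E] [InnerProductSpace ℝ E] [FiniteDimensional ℝ E]
  [MeasurableSpace E] [BorelSpace E] {n : ℕ}

set_option linter.unusedSectionVars false

lemma memLp_mul_bcf (μ : Measure E) (Ω : Set E) (m : E →ᵇ ℂ) (h : L2 μ Ω) :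
    MemLp (fun x => m x * h x) 2 (μ.restrict Ω) :=
  MemLp.of_le_mul (c := ‖m‖) (Lp.memLp h)
    (m.continuous.aestronglyMeasurable.mul (Lp.aestronglyMeasurable h))
    (Eventually.of_forall fun x => by
      rw [norm_mul]
      exact mul_le_mul_of_nonneg_right (m.norm_coe_le_norm x) (norm_nonneg _))

/-- Multiplication by a bounded continuous function, as a bilinear map. -/
def mulLin (μ : Measure E) (Ω : Set E) : (E →ᵇ ℂ) →ₗ[ℂ] L2 μ Ω →ₗ[ℂ] L2 μ Ω :=
  LinearMap.mk₂ ℂ (fun m h => (memLp_mul_bcf μ Ω m h).toLp _)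
    (fun m m' h => by
      rw [← MemLp.toLp_add]
      refine MemLp.toLp_congr _ _ (Eventually.of_forall fun x => ?_)
      simp [add_mul])
    (fun c m h => by
      rw [← MemLp.toLp_const_smul]
      refine MemLp.toLp_congr _ _ (Eventually.of_forall fun x => ?_)
      simp [mul_assoc])
    (fun m h h' => by
      rw [← MemLp.toLp_add]
      refine MemLp.toLp_congr _ _ ?_
      filter_upwards [Lp.coeFn_add h h'] with x hx
      simp only [hx, mul_add, Pi.add_apply])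
    (fun c m h => by
      rw [← MemLp.toLp_const_smul]
      refine MemLp.toLp_congr _ _ ?_
      filter_upwards [Lp.coeFn_smul c h] with x hx
      simp [hx, mul_left_comm])

lemma coeFn_mulLin (μ : Measure E) (Ω : Set E) (m : E →ᵇ ℂ) (h : L2 μ Ω) :
    mulLin μ Ω m h =ᵐ[μ.restrict Ω] fun x => m x * h x :=
  (memLp_mul_bcf μ Ω m h).coeFn_toLp

lemma norm_mulLin_le (μ : Measure E) (Ω : Set E) (m : E →ᵇ ℂ) (h : L2 μ Ω) :
    ‖mulLin μ Ω m h‖ ≤ 1 * ‖m‖ * ‖h‖ := by
  rw [one_mul]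
  refine Lp.norm_le_mul_norm_of_ae_le_mul ?_
  filter_upwards [coeFn_mulLin μ Ω m h] with x hx
  rw [hx, norm_mul]
  exact mul_le_mul_of_nonneg_right (m.norm_coe_le_norm x) (norm_nonneg _)

/-- Multiplication by a real bounded continuous function. -/
def mulOp (μ : Measure E) (Ω : Set E) : (E →ᵇ ℝ) →L[ℝ] L2 μ Ω →L[ℂ] L2 μ Ω :=
  (((mulLin μ Ω).mkContinuous₂ 1 (norm_mulLin_le μ Ω)).restrictScalars ℝ).comp
    (Complex.ofRealCLM.compLeftContinuousBounded E)

lemma coeFn_mulOp (μ : Measure E) (Ω : Set E) (m : E →ᵇ ℝ) (h : L2 μ Ω) :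
    mulOp μ Ω m h =ᵐ[μ.restrict Ω] fun x => (m x : ℂ) * h x :=
  coeFn_mulLin μ Ω _ h

lemma mulOp_mul (μ : Measure E) (Ω : Set E) (m m' : E →ᵇ ℝ) (h : L2 μ Ω) :
    mulOp μ Ω m (mulOp μ Ω m' h) = mulOp μ Ω (m * m') h := by
  refine Lp.ext ?_
  filter_upwards [coeFn_mulOp μ Ω m (mulOp μ Ω m' h), coeFn_mulOp μ Ω m' h, coeFn_mulOp μ Ω (m * m') h]
    with x h1 h2 h3
  rw [h1, h2, h3]
  simp [mul_assoc]

/-- The components of an element of `V`. -/
def comp (μ : Measure E) (b : OrthonormalBasis (Fin n) ℝ E) (Ω D : Set E) (o : Option (Fin n)) : formDomain μ b Ω D →L[ℂ] L2 μ Ω :=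
  (PiLp.proj 2 (fun _ : Option (Fin n) => L2 μ Ω) o).comp (formDomain μ b Ω D).subtypeL

lemma comp_apply (μ : Measure E) (b : OrthonormalBasis (Fin n) ℝ E) (Ω D : Set E) (o : Option (Fin n)) (u : formDomain μ b Ω D) :
    comp μ b Ω D o u = (u : Jet n μ Ω) o := rfl

lemma toH_eq (μ : Measure E) (b : OrthonormalBasis (Fin n) ℝ E) (Ω D : Set E) : toH μ b Ω D = comp μ b Ω D none := rfl

/-- Pairing with a component. -/
def dualOf (μ : Measure E) (b : OrthonormalBasis (Fin n) ℝ E) (Ω D : Set E) (o : Option (Fin n)) : L2 μ Ω →L[ℂ] Antidual μ b Ω D :=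
  (ContinuousLinearMap.precomp ℂ (comp μ b Ω D o)).comp (innerSLFlip ℂ)

lemma dualOf_apply (μ : Measure E) (b : OrthonormalBasis (Fin n) ℝ E) (Ω D : Set E) (o : Option (Fin n)) (h : L2 μ Ω) (v : formDomain μ b Ω D) :
    dualOf μ b Ω D o h v = ⟪comp μ b Ω D o v, h⟫_ℂ := rfl

lemma toAntidual_eq (μ : Measure E) (b : OrthonormalBasis (Fin n) ℝ E) (Ω D : Set E) (h : L2 μ Ω) : toAntidual (toH μ b Ω D) h = dualOf μ b Ω D none h := rfl

/-- The operator of a matrix of coefficients. -/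
def matOp (μ : Measure E) (b : OrthonormalBasis (Fin n) ℝ E) (Ω D : Set E) (M : Fin n → Fin n → (E →ᵇ ℝ)) :
    formDomain μ b Ω D →L[ℂ] Antidual μ b Ω D :=
  ∑ i, ∑ j, (dualOf μ b Ω D (some i)).comp ((mulOp μ Ω (M i j)).comp (comp μ b Ω D (some j)))

lemma matOp_apply (μ : Measure E) (b : OrthonormalBasis (Fin n) ℝ E) (Ω D : Set E) (M : Fin n → Fin n → (E →ᵇ ℝ))
    (u : formDomain μ b Ω D) :
    matOp μ b Ω D M u = ∑ i, ∑ j, dualOf μ b Ω D (some i) (mulOp μ Ω (M i j) (comp μ b Ω D (some j) u)) := by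
  simp only [matOp, sum_apply, ContinuousLinearMap.comp_apply]

lemma exists_norm_matOp_sub_le (μ : Measure E) (b : OrthonormalBasis (Fin n) ℝ E) (Ω D : Set E) :
    ∃ K : ℝ, 0 ≤ K ∧ ∀ (M M' : Fin n → Fin n → (E →ᵇ ℝ)) (c : ℝ),
      (∀ i j, ‖M i j - M' i j‖ ≤ c) → ‖matOp μ b Ω D M - matOp μ b Ω D M'‖ ≤ K * c := by
  refine ⟨∑ i, ∑ j, ‖dualOf μ b Ω D (some i)‖ * (‖mulOp μ Ω‖ * ‖comp μ b Ω D (some j)‖), by positivity,
    fun M M' c h => ?_⟩
  rw [matOp, matOp, ← Finset.sum_sub_distrib, Finset.sum_mul]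
  refine (norm_sum_le _ _).trans (Finset.sum_le_sum fun i _ => ?_)
  rw [← Finset.sum_sub_distrib, Finset.sum_mul]
  refine (norm_sum_le _ _).trans (Finset.sum_le_sum fun j _ => ?_)
  rw [← ContinuousLinearMap.comp_sub, ← ContinuousLinearMap.sub_comp, ← map_sub]
  calc _ ≤ ‖dualOf μ b Ω D (some i)‖ * ‖(mulOp μ Ω (M i j - M' i j)).comp (comp μ b Ω D (some j))‖ :=
        ContinuousLinearMap.opNorm_comp_le _ _
    _ ≤ ‖dualOf μ b Ω D (some i)‖ * (‖mulOp μ Ω (M i j - M' i j)‖ * ‖comp μ b Ω D (some j)‖) := by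
        gcongr
        exact ContinuousLinearMap.opNorm_comp_le _ _
    _ ≤ ‖dualOf μ b Ω D (some i)‖ * ((‖mulOp μ Ω‖ * c) * ‖comp μ b Ω D (some j)‖) := by
        gcongr
        exact ((mulOp μ Ω).le_opNorm _).trans (mul_le_mul_of_nonneg_left (h i j) (norm_nonneg _))
    _ = _ := by ring

lemma integrable_entry (μ : Measure E) (b : OrthonormalBasis (Fin n) ℝ E) (Ω D : Set E) (m : E →ᵇ ℝ) (i j : Fin n)
    (u v : formDomain μ b Ω D) :
    Integrable (fun x => (m x : ℂ) * (u : Jet n μ Ω) (some j) x * conj ((v : Jet n μ Ω) (some i) x))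
      (μ.restrict Ω) := by
  refine (L2.integrable_inner (𝕜 := ℂ) (comp μ b Ω D (some i) v)
    (mulOp μ Ω m (comp μ b Ω D (some j) u))).congr ?_
  filter_upwards [coeFn_mulOp μ Ω m (comp μ b Ω D (some j) u)] with x hx
  rw [hx]
  simp [comp_apply]

lemma matOp_eq_form (μ : Measure E) (b : OrthonormalBasis (Fin n) ℝ E) (Ω D : Set E) (M : Fin n → Fin n → (E →ᵇ ℝ))
    (u v : formDomain μ b Ω D) :
    matOp μ b Ω D M u v = form μ b Ω D (fun x => Matrix.of fun i j => (M i j x : ℂ)) u v := by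
  simp only [form, Matrix.of_apply]
  rw [matOp_apply, integral_finsetSum _ (fun i _ =>
    integrable_finsetSum _ fun j _ => integrable_entry μ b Ω D (M i j) i j u v),
    sum_apply]
  refine Finset.sum_congr rfl fun i _ => ?_
  rw [integral_finsetSum _ (fun j _ => integrable_entry μ b Ω D (M i j) i j u v),
    sum_apply]
  refine Finset.sum_congr rfl fun j _ => ?_
  rw [dualOf_apply, L2.inner_def]
  refine integral_congr_ae ?_
  filter_upwards [coeFn_mulOp μ Ω (M i j) (comp μ b Ω D (some j) u)] with x hx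
  rw [hx]
  simp [comp_apply]

lemma matOp_coercive (μ : Measure E) (b : OrthonormalBasis (Fin n) ℝ E) (Ω D : Set E) (hΩ : MeasurableSet Ω)
    (M : Fin n → Fin n → (E →ᵇ ℝ)) {lam Lam : ℝ}
    (hlam : 0 < lam) (hM : ∀ x ∈ Ω, IsElliptic lam Lam (Matrix.of fun i j => (M i j x : ℂ)))
    (u : formDomain μ b Ω D) :
    0 ≤ (matOp μ b Ω D M u u).re ∧ ((matOp μ b Ω D M u u).re ≤ 0 → matOp μ b Ω D M u = 0) := by
  set F : E → ℂ := fun x => ∑ i, ∑ j,
    (M i j x : ℂ) * (u : Jet n μ Ω) (some j) x * conj ((u : Jet n μ Ω) (some i) x) with hF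
  have hFi : Integrable F (μ.restrict Ω) := integrable_finsetSum _ (fun i _ =>
    integrable_finsetSum _ fun j _ => integrable_entry μ b Ω D (M i j) i j u u)
  have e : (matOp μ b Ω D M u u).re = ∫ x in Ω, (F x).re ∂μ := by
    rw [matOp_eq_form]
    exact (integral_re hFi).symm
  have hge : ∀ᵐ x ∂(μ.restrict Ω), lam * ∑ i, ‖(u : Jet n μ Ω) (some i) x‖ ^ 2 ≤ (F x).re := by
    filter_upwards [ae_restrict_mem hΩ] with x hx
    have := (hM x hx (fun i => (u : Jet n μ Ω) (some i) x)).2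
    simpa [hF, Matrix.mulVec, dotProduct, Finset.sum_mul] using this
  have hnn : 0 ≤ᵐ[μ.restrict Ω] fun x => (F x).re := by
    filter_upwards [hge] with x hx
    exact le_trans (by positivity) hx
  rw [e]
  refine ⟨integral_nonneg_of_ae hnn, fun h => ?_⟩
  have h0 := (integral_eq_zero_iff_of_nonneg_ae hnn hFi.re).1
    (le_antisymm h (integral_nonneg_of_ae hnn))
  have hz : ∀ j, comp μ b Ω D (some j) u = 0 := by
    intro j
    refine Lp.ext ?_
    filter_upwards [h0, hge, Lp.coeFn_zero ℂ 2 (μ.restrict Ω)] with x h1 h2 h3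
    rw [h3]
    have h4 : (F x).re = 0 := h1
    rw [h4] at h2
    have h5 : ∑ i, ‖(u : Jet n μ Ω) (some i) x‖ ^ 2 ≤ 0 := by
      by_contra hc
      have := mul_pos hlam (not_le.1 hc)
      linarith
    have h6 := (Finset.sum_eq_zero_iff_of_nonneg (fun i _ => sq_nonneg _)).1
      (le_antisymm h5 (Finset.sum_nonneg fun i _ => sq_nonneg _)) j (Finset.mem_univ j)
    simpa [comp_apply] using h6
  simp [matOp_apply, hz]

end Pool.Agent.MP_954c34_an
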