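import Pool.Agent.MP_954c34_an.Jets
import Pool.Agent.MP_954c34_an.Coeff

open Set Filter Topology
open scoped ContDiff

noncomputable section

namespace Pool.Agent.MP_954c34_an

variable {E : Type} [NormedAddCommGroup E] [InnerProductSpace ℝ E] [FiniteDimensional ℝ E]
  [MeasurableSpace E] [BorelSpace E] {n : ℕ}

set_option linter.unusedSectionVars false

variable {b : OrthonormalBasis (Fin n) ℝ E}

lemma pd_of_hasFDerivAt {F : E → ℝ} {L : E →L[ℝ] ℝ} {x : E}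
    (h : HasFDerivAt F L x) (i : Fin n) : pd b i F x = L (b i) := by
  rw [pd, h.fderiv]

/-- The coordinate functional. -/
def crd (b : OrthonormalBasis (Fin n) ℝ E) (i₀ : Fin n) : E →L[ℝ] ℝ := innerSL ℝ (b i₀)

lemma crd_basis (i₀ i : Fin n) : crd b i₀ (b i) = kron i₀ i := by
  simp [crd, kron, orthonormal_iff_ite.1 b.orthonormal]

lemma hasFDerivAt_coord (b : OrthonormalBasis (Fin n) ℝ E) (i₀ : Fin n) (x : E) :
    HasFDerivAt (fun x : E => crd b i₀ x) (crd b i₀) x :=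
  (crd b i₀).hasFDerivAt

lemma contDiff_coord (b : OrthonormalBasis (Fin n) ℝ E) (i₀ : Fin n) :
    ContDiff ℝ ∞ (fun x : E => crd b i₀ x) :=
  (crd b i₀).contDiff

/-- `h(x) cos (fr x₀)`. -/
def cosOsc (b : OrthonormalBasis (Fin n) ℝ E) (i₀ : Fin n) (h : E → ℝ) (fr : ℝ) (x : E) : ℝ := h x * Real.cos (fr * crd b i₀ x)

/-- `h(x) sin (fr x₀)`. -/
def sinOsc (b : OrthonormalBasis (Fin n) ℝ E) (i₀ : Fin n) (h : E → ℝ) (fr : ℝ) (x : E) : ℝ := h x * Real.sin (fr * crd b i₀ x)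

lemma Test.cosOsc {K : Set E} {h : E → ℝ} (hh : Test K h) (i₀ : Fin n) (fr : ℝ) :
    Test K (cosOsc b i₀ h fr) :=
  ⟨hh.smooth.mul (contDiff_const.mul (contDiff_coord b i₀)).cos,
    tsupport_mul_subset_left.trans hh.supp⟩

lemma Test.sinOsc {K : Set E} {h : E → ℝ} (hh : Test K h) (i₀ : Fin n) (fr : ℝ) :
    Test K (sinOsc b i₀ h fr) :=
  ⟨hh.smooth.mul (contDiff_const.mul (contDiff_coord b i₀)).sin,
    tsupport_mul_subset_left.trans hh.supp⟩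

lemma Test.const_mul {K : Set E} {h : E → ℝ} (hh : Test K h) (c : ℝ) :
    Test K (fun x => c * h x) :=
  ⟨contDiff_const.mul hh.smooth, tsupport_mul_subset_right.trans hh.supp⟩

lemma pd_const_mul {h : E → ℝ} (hh : Differentiable ℝ h) (c : ℝ) (i : Fin n) :
    pd b i (fun x => c * h x) = fun x => c * pd b i h x := by
  funext x
  rw [pd_of_hasFDerivAt ((hh x).hasFDerivAt.const_mul c)]
  simp [pd]

lemma pd_add {h h' : E → ℝ} (hh : Differentiable ℝ h) (hh' : Differentiable ℝ h')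
    (i : Fin n) : pd b i (fun x => h x + h' x) = fun x => pd b i h x + pd b i h' x := by
  funext x
  rw [pd_of_hasFDerivAt ((hh x).hasFDerivAt.fun_add (hh' x).hasFDerivAt)]
  simp [pd]

lemma pd_cosOsc {h : E → ℝ} (hh : Differentiable ℝ h) (i₀ i : Fin n) (fr : ℝ) :
    pd b i (cosOsc b i₀ h fr) = fun x =>
      cosOsc b i₀ (pd b i h) fr x + (-(fr * kron i₀ i)) * sinOsc b i₀ h fr x := by
  funext x
  have := (hh x).hasFDerivAt.fun_mul ((hasFDerivAt_coord b i₀ x).const_mul fr).cos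
  unfold cosOsc
  rw [pd_of_hasFDerivAt this]
  simp [pd, sinOsc, crd_basis]
  ring

lemma pd_sinOsc {h : E → ℝ} (hh : Differentiable ℝ h) (i₀ i : Fin n) (fr : ℝ) :
    pd b i (sinOsc b i₀ h fr) = fun x =>
      sinOsc b i₀ (pd b i h) fr x + (fr * kron i₀ i) * cosOsc b i₀ h fr x := by
  funext x
  have := (hh x).hasFDerivAt.fun_mul ((hasFDerivAt_coord b i₀ x).const_mul fr).sin
  unfold sinOsc
  rw [pd_of_hasFDerivAt this]
  simp [pd, cosOsc, crd_basis]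
  ring

lemma abs_cosOsc_le {h : E → ℝ} {M : ℝ} (hM : ∀ x, |h x| ≤ M) (i₀ : Fin n) (fr : ℝ)
    (x : E) : |cosOsc b i₀ h fr x| ≤ M := by
  rw [cosOsc, abs_mul]
  exact (mul_le_of_le_one_right (abs_nonneg _) (Real.abs_cos_le_one _)).trans (hM x)

lemma abs_sinOsc_le {h : E → ℝ} {M : ℝ} (hM : ∀ x, |h x| ≤ M) (i₀ : Fin n) (fr : ℝ)
    (x : E) : |sinOsc b i₀ h fr x| ≤ M := by
  rw [sinOsc, abs_mul]
  exact (mul_le_of_le_one_right (abs_nonneg _) (Real.abs_sin_le_one _)).trans (hM x)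

lemma abs_add_mul_le {a b c A B fr : ℝ} (ha : |a| ≤ A) (hb : |b| ≤ B) (hc : |c| ≤ fr) :
    |a + c * b| ≤ A + fr * B := by
  refine (abs_add_le _ _).trans (add_le_add ha ?_)
  rw [abs_mul]
  exact mul_le_mul hc hb (abs_nonneg _) ((abs_nonneg _).trans hc)

lemma abs_mul_kron_le {fr : ℝ} (hfr : 0 ≤ fr) (i j : Fin n) : |fr * kron i j| ≤ fr := by
  rw [abs_mul, abs_of_nonneg hfr]
  exact mul_le_of_le_one_right hfr (abs_kron_le i j)

lemma abs_pd_osc_le {h : E → ℝ} (hh : Differentiable ℝ h) {M fr : ℝ} (hfr : 1 ≤ fr)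
    (h0 : ∀ x, |h x| ≤ M) {i : Fin n} (h1 : ∀ x, |pd b i h x| ≤ M) (i₀ : Fin n) (x : E) :
    |pd b i (cosOsc b i₀ h fr) x| ≤ 2 * M * fr ∧ |pd b i (sinOsc b i₀ h fr) x| ≤ 2 * M * fr := by
  have hM : 0 ≤ M := (abs_nonneg _).trans (h0 0)
  have hk := abs_mul_kron_le (by linarith : 0 ≤ fr) i₀ i
  rw [pd_cosOsc hh, pd_sinOsc hh]
  constructor
  · refine (abs_add_mul_le (abs_cosOsc_le h1 i₀ fr x) (abs_sinOsc_le h0 i₀ fr x)
      ((abs_neg _).trans_le hk)).trans ?_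
    nlinarith
  · refine (abs_add_mul_le (abs_sinOsc_le h1 i₀ fr x) (abs_cosOsc_le h0 i₀ fr x) hk).trans ?_
    nlinarith

lemma abs_pd_pd_osc_le {K : Set E} {h : E → ℝ} (hh : Test K h) {M fr : ℝ}
    (hfr : 1 ≤ fr) (h0 : ∀ x, |h x| ≤ M) (h1 : ∀ i x, |pd b i h x| ≤ M) (i₀ i : Fin n)
    (h2 : ∀ x, |pd b i (pd b i₀ h) x| ≤ M) (x : E) :
    |pd b i (pd b i₀ (cosOsc b i₀ h fr)) x| ≤ 4 * M * fr ^ 2 ∧
      |pd b i (pd b i₀ (sinOsc b i₀ h fr)) x| ≤ 4 * M * fr ^ 2 := by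
  have hM : 0 ≤ M := (abs_nonneg _).trans (h0 0)
  have hk := abs_mul_kron_le (by linarith : 0 ≤ fr) i₀ i₀
  have b1 := abs_pd_osc_le (hh.pd b i₀).differentiable hfr (h1 i₀) h2 i₀ x
  have b2 := abs_pd_osc_le hh.differentiable hfr h0 (h1 i) i₀ x
  have hle : 2 * M * fr + fr * (2 * M * fr) ≤ 4 * M * fr ^ 2 := by
    nlinarith [mul_nonneg hM (mul_nonneg (by linarith : 0 ≤ fr) (by linarith : 0 ≤ fr - 1))]
  rw [pd_cosOsc hh.differentiable, pd_sinOsc hh.differentiable,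
    pd_add ((hh.pd b i₀).cosOsc i₀ fr).differentiable ((hh.sinOsc i₀ fr).const_mul _).differentiable,
    pd_add ((hh.pd b i₀).sinOsc i₀ fr).differentiable ((hh.cosOsc i₀ fr).const_mul _).differentiable,
    pd_const_mul (hh.sinOsc i₀ fr).differentiable, pd_const_mul (hh.cosOsc i₀ fr).differentiable]
  exact ⟨(abs_add_mul_le b1.1 b2.2 (by rwa [abs_neg])).trans hle,
    (abs_add_mul_le b1.2 b2.1 hk).trans hle⟩

lemma le_norm_pd_osc {h : E → ℝ} (hh : Differentiable ℝ h) (i₀ : Fin n) (fr : ℝ)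
    (x : E) : |fr * h x| ≤
      ‖(pd b i₀ (sinOsc b i₀ h fr) x : ℂ) - Complex.I * (pd b i₀ (cosOsc b i₀ h fr) x : ℂ)‖ := by
  rw [← sq_le_sq₀ (abs_nonneg _) (norm_nonneg _), sq_abs, ← Complex.normSq_eq_norm_sq,
    Complex.normSq_apply, pd_cosOsc hh, pd_sinOsc hh]
  simp only [Complex.sub_re, Complex.ofReal_re, Complex.mul_re, Complex.I_re, Complex.I_im,
    Complex.ofReal_im, Complex.sub_im, Complex.mul_im, cosOsc, sinOsc, kron, if_true]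
  have := Real.sin_sq_add_cos_sq (fr * crd b i₀ x)
  have e : ∀ a b s c : ℝ, s ^ 2 + c ^ 2 = 1 → b ^ 2 ≤ (a * s + b * c) ^ 2 + (a * c - b * s) ^ 2 := by
    intro a b s c h
    have : (a * s + b * c) ^ 2 + (a * c - b * s) ^ 2 = (a ^ 2 + b ^ 2) * (s ^ 2 + c ^ 2) := by ring
    rw [this, h]
    nlinarith [sq_nonneg a]
  have := e (pd b i₀ h x) (fr * h x) _ _ this
  nlinarith

lemma exists_osc (b : OrthonormalBasis (Fin n) ℝ E) (i₀ : Fin n) {K : Set E} (hK : IsCompact K) {χ : E → ℝ}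
    (hχ : Test K χ) : ∃ (cc ss : ℕ → E → ℝ) (M : ℝ), 0 < M ∧
      (∀ k, Test K (cc k)) ∧ (∀ k, Test K (ss k)) ∧
      (∀ k x, |cc k x| ≤ M * (1 / 8) ^ k) ∧ (∀ k x, |ss k x| ≤ M * (1 / 8) ^ k) ∧
      (∀ k x, |pd b i₀ (cc k) x| ≤ M * (1 / 2) ^ k) ∧ (∀ k x, |pd b i₀ (ss k) x| ≤ M * (1 / 2) ^ k) ∧
      (∀ k i x, |pd b i (pd b i₀ (cc k)) x| ≤ M * (1 / 2) ^ k) ∧
      (∀ k i x, |pd b i (pd b i₀ (ss k)) x| ≤ M * (1 / 2) ^ k) ∧
      ∀ k x, |χ x| ≤ 4 ^ k * ‖(pd b i₀ (ss k) x : ℂ) - Complex.I * (pd b i₀ (cc k) x : ℂ)‖ := by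
  obtain ⟨C₀, hC₀, h0⟩ := hχ.exists_bound hK
  choose C₁ hC₁ h1 using fun i => (hχ.pd b i).exists_bound hK
  choose C₂ hC₂ h2 using fun i => ((hχ.pd b i₀).pd b i).exists_bound hK
  set M := 1 + C₀ + ∑ i, C₁ i + ∑ i, C₂ i with hM
  have s1 : 0 ≤ ∑ i, C₁ i := Finset.sum_nonneg fun i _ => hC₁ i
  have s2 : 0 ≤ ∑ i, C₂ i := Finset.sum_nonneg fun i _ => hC₂ i
  have hM0 : 0 < M := by positivity
  have g0 : ∀ x, |χ x| ≤ M := fun x => (h0 x).trans (by linarith)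
  have g1 : ∀ i x, |pd b i χ x| ≤ M := fun i x => (h1 i x).trans (by
    have := Finset.single_le_sum (fun i _ => hC₁ i) (Finset.mem_univ i)
    linarith)
  have g2 : ∀ i x, |pd b i (pd b i₀ χ) x| ≤ M := fun i x => (h2 i x).trans (by
    have := Finset.single_le_sum (fun i _ => hC₂ i) (Finset.mem_univ i)
    linarith)
  set h : ℕ → E → ℝ := fun k x => (1 / 8) ^ k * χ x with hh
  have ht : ∀ k, Test K (h k) := fun k => hχ.const_mul _
  have habs : ∀ (k : ℕ) (y : ℝ), |y| ≤ M → |(1 / 8 : ℝ) ^ k * y| ≤ M * (1 / 8) ^ k := by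
    intro k y hy
    rw [abs_mul, abs_of_pos (by positivity), mul_comm]
    gcongr
  have f0 : ∀ k x, |h k x| ≤ M * (1 / 8) ^ k := fun k x => habs k _ (g0 x)
  have f1 : ∀ k i x, |pd b i (h k) x| ≤ M * (1 / 8) ^ k := fun k i x => by
    rw [hh, pd_const_mul hχ.differentiable]
    exact habs k _ (g1 i x)
  have f2 : ∀ k i x, |pd b i (pd b i₀ (h k)) x| ≤ M * (1 / 8) ^ k := fun k i x => by
    rw [hh, pd_const_mul hχ.differentiable, pd_const_mul (hχ.pd b i₀).differentiable]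
    exact habs k _ (g2 i x)
  have hfr : ∀ k : ℕ, (1 : ℝ) ≤ 2 ^ k := fun k => one_le_pow₀ (by norm_num)
  have e2 : ∀ k : ℕ, 4 * (M * (1 / 8) ^ k) * ((2 : ℝ) ^ k) ^ 2 = 4 * M * (1 / 2) ^ k := by
    intro k
    have : (1 / 8 : ℝ) ^ k * ((2 : ℝ) ^ k) ^ 2 = (1 / 2) ^ k := by
      rw [← pow_mul, mul_comm k 2, pow_mul, ← mul_pow]
      norm_num
    rw [← this]
    ring
  have e1 : ∀ k : ℕ, 2 * (M * (1 / 8) ^ k) * (2 : ℝ) ^ k ≤ 4 * M * (1 / 2) ^ k := by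
    intro k
    rw [← e2 k]
    have := hfr k
    have h8 : 0 < M * (1 / 8) ^ k := by positivity
    nlinarith [mul_pos h8 (by linarith : (0 : ℝ) < 2 ^ k)]
  have e0 : ∀ k : ℕ, M * (1 / 8 : ℝ) ^ k ≤ 4 * M * (1 / 8) ^ k := by
    intro k
    have h8 : 0 < M * (1 / 8) ^ k := by positivity
    nlinarith
  refine ⟨fun k => cosOsc b i₀ (h k) (2 ^ k), fun k => sinOsc b i₀ (h k) (2 ^ k), 4 * M, by positivity,
    fun k => (ht k).cosOsc _ _, fun k => (ht k).sinOsc _ _,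
    fun k x => (abs_cosOsc_le (f0 k) _ _ x).trans (e0 k),
    fun k x => (abs_sinOsc_le (f0 k) _ _ x).trans (e0 k),
    fun k x => (abs_pd_osc_le (ht k).differentiable (hfr k) (f0 k) (f1 k i₀) i₀ x).1.trans (e1 k),
    fun k x => (abs_pd_osc_le (ht k).differentiable (hfr k) (f0 k) (f1 k i₀) i₀ x).2.trans (e1 k),
    fun k i x => (abs_pd_pd_osc_le (ht k) (hfr k) (f0 k) (f1 k) i₀ i (f2 k i) x).1.trans (e2 k).le,
    fun k i x => (abs_pd_pd_osc_le (ht k) (hfr k) (f0 k) (f1 k) i₀ i (f2 k i) x).2.trans (e2 k).le,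
    fun k x => ?_⟩
  have := le_norm_pd_osc (b := b) (ht k).differentiable i₀ (2 ^ k) x
  refine le_trans (le_of_eq ?_) (mul_le_mul_of_nonneg_left this (by positivity))
  have e : (4 : ℝ) ^ k * (2 ^ k * (1 / 8) ^ k) = 1 := by
    rw [← mul_pow, ← mul_pow]
    norm_num
  simp only [hh]
  rw [← mul_assoc, abs_mul, abs_of_pos (by positivity : (0 : ℝ) < 2 ^ k * (1 / 8) ^ k),
    ← mul_assoc, e, one_mul]

end Pool.Agent.MP_954c34_an
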