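import Pool.Agent.MP_954c34_an.WeakDeriv

open MeasureTheory Set Filter Topology
open scoped ContDiff

noncomputable section

namespace Pool.Agent.MP_954c34_an

variable {X : Type} [NormedAddCommGroup X] [NormedSpace ℝ X]

/-- A bump function in the middle of `(0, T)`. -/
def midBump {T : ℝ} (hT : 0 < T) : ContDiffBump (T / 2) :=
  ⟨T / 8, T / 4, by positivity, by linarith⟩

lemma closedBall_midBump {T : ℝ} (hT : 0 < T) :
    Metric.closedBall (T / 2) (midBump hT).rOut ⊆ Ioo 0 T := by
  intro t ht
  rw [Real.closedBall_eq_Icc] at ht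
  simp only [midBump] at ht
  constructor <;> linarith [ht.1, ht.2]

lemma setIntegral_smul_eq_integral {T : ℝ} {φ : ℝ → ℝ} (h : tsupport φ ⊆ Ioo 0 T) (u : ℝ → X) :
    ∫ t in Ioo 0 T, φ t • u t = ∫ t, φ t • u t :=
  setIntegral_eq_integral_of_forall_compl_eq_zero fun t ht => by
    rw [eq_zero_of_tsupport_subset h ht, zero_smul]

lemma eq_const_of_hasWeakDeriv_zero [CompleteSpace X] {T : ℝ} (hT : 0 < T) {z : ℝ → X}
    (hz : ContinuousOn z (Icc 0 T)) (h : HasWeakDeriv T z (fun _ => 0)) :
    ∀ t ∈ Icc 0 T, z t = z 0 := by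
  set ψ₀ : ℝ → ℝ := (midBump hT).normed volume with hψ₀
  have hψ₀s : tsupport ψ₀ ⊆ Ioo 0 T := by
    rw [hψ₀, ContDiffBump.tsupport_normed_eq]
    exact closedBall_midBump hT
  have hψ₀d : ContDiff ℝ ∞ ψ₀ := (midBump hT).contDiff_normed
  have hψ₀c : HasCompactSupport ψ₀ := (midBump hT).hasCompactSupport_normed
  have hψ₀i : ∫ t, ψ₀ t = 1 := (midBump hT).integral_normed
  have hzi : IntegrableOn z (Ioo 0 T) := hz.integrableOn_Icc.mono_set Ioo_subset_Icc_self
  set c : X := ∫ t in Ioo 0 T, ψ₀ t • z t with hc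
  have key : ∀ ψ : ℝ → ℝ, ContDiff ℝ ∞ ψ → HasCompactSupport ψ → tsupport ψ ⊆ Ioo 0 T →
      ∫ t, ψ t • (z t - c) = 0 := by
    intro ψ hψ hψc hψs
    set m : ℝ := ∫ t, ψ t with hm
    set θ : ℝ → ℝ := fun t => ψ t - m * ψ₀ t with hθ
    have hθd : ContDiff ℝ ∞ θ := hψ.sub (contDiff_const.mul hψ₀d)
    have hθc : Continuous θ := hθd.continuous
    have hψi : Integrable ψ := hψ.continuous.integrable_of_hasCompactSupport hψc
    have hψ₀int : Integrable ψ₀ := hψ₀d.continuous.integrable_of_hasCompactSupport hψ₀c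
    have hθi : ∫ t, θ t = 0 := by
      rw [hθ, integral_sub hψi (hψ₀int.const_mul m), integral_const_mul, hψ₀i]
      simp [hm]
    have hK : IsCompact (tsupport ψ ∪ tsupport ψ₀) := IsCompact.union hψc hψ₀c
    have hKne : (tsupport ψ ∪ tsupport ψ₀).Nonempty := by
      refine ⟨T / 2, Or.inr ?_⟩
      rw [hψ₀, ContDiffBump.tsupport_normed_eq]
      exact Metric.mem_closedBall_self (midBump hT).rOut_pos.le
    obtain ⟨a, ha⟩ := hK.exists_isLeast hKne
    obtain ⟨b, hb⟩ := hK.exists_isGreatest hKne
    have hsub : tsupport ψ ∪ tsupport ψ₀ ⊆ Ioo 0 T := union_subset hψs hψ₀s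
    have ha' := hsub ha.1
    have hb' := hsub hb.1
    have hθ0 : ∀ t, t ∉ Icc a b → θ t = 0 := by
      intro t ht
      have h1 : t ∉ tsupport ψ ∪ tsupport ψ₀ := fun h' => ht ⟨ha.2 h', hb.2 h'⟩
      rw [mem_union, not_or] at h1
      simp [hθ, image_eq_zero_of_notMem_tsupport h1.1, image_eq_zero_of_notMem_tsupport h1.2]
    set φ : ℝ → ℝ := fun t => ∫ s in (0 : ℝ)..t, θ s with hφ
    have hφderiv : deriv φ = θ := by
      funext t
      exact Continuous.deriv_integral θ hθc 0 t
    have hφd : ContDiff ℝ ∞ φ := by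
      rw [contDiff_infty_iff_deriv, hφderiv]
      exact ⟨fun t => (hθc.integral_hasStrictDerivAt 0 t).hasDerivAt.differentiableAt, hθd⟩
    have hφ0 : ∀ t, t ∉ Icc a b → φ t = 0 := by
      intro t ht
      rw [mem_Icc, not_and_or, not_le, not_le] at ht
      rcases ht with ht | ht
      · simp only [hφ]
        rw [intervalIntegral.integral_congr (g := fun _ => 0)]
        · simp
        · intro s hs
          apply hθ0
          rw [mem_Icc, not_and_or, not_le, not_le]
          left
          rcases mem_uIcc.1 hs with h1 | h1 <;> linarith [h1.2, ha'.1]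
      · simp only [hφ]
        rw [intervalIntegral.integral_of_le (by linarith [hb'.1]),
          setIntegral_eq_integral_of_forall_compl_eq_zero, hθi]
        intro s hs
        apply hθ0
        intro hs'
        exact hs ⟨by linarith [hs'.1, ha'.1], by linarith [hs'.2]⟩
    have hφs : tsupport φ ⊆ Icc a b :=
      closure_minimal (fun t ht => by_contra fun h' => ht (hφ0 t h')) isClosed_Icc
    have hφs' : tsupport φ ⊆ Ioo 0 T := hφs.trans (Icc_subset_Ioo ha'.1 hb'.2)
    have hφc : HasCompactSupport φ := isCompact_Icc.of_isClosed_subset (isClosed_tsupport _) hφs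
    have h1 := h φ hφd hφc hφs'
    rw [hφderiv] at h1
    simp only [smul_zero, integral_zero, neg_zero, hθ, sub_smul, mul_smul] at h1
    have hi2 : Integrable (fun t => m • ψ₀ t • z t) (volume.restrict (Ioo 0 T)) :=
      (integrableOn_smul_of_continuous hψ₀d.continuous hzi).smul m
    rw [integral_sub (integrableOn_smul_of_continuous hψ.continuous hzi) hi2,
      integral_smul, ← hc] at h1
    rw [← setIntegral_smul_eq_integral hψs]
    simp only [smul_sub]
    rw [integral_sub (integrableOn_smul_of_continuous hψ.continuous hzi)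
      (hψi.integrableOn.smul_const c), setIntegral_smul_eq_integral hψs (fun _ => c),
      integral_smul_const]
    exact h1
  have hloc : LocallyIntegrableOn (fun t => z t - c) (Ioo 0 T) volume :=
    ((hz.mono Ioo_subset_Icc_self).sub continuousOn_const).locallyIntegrableOn measurableSet_Ioo
  have hae := isOpen_Ioo.ae_eq_zero_of_integral_contDiff_smul_eq_zero hloc key
  have hae' : z =ᵐ[volume.restrict (Icc 0 T)] fun _ => c := by
    rw [← Measure.restrict_congr_set Ioo_ae_eq_Icc]
    filter_upwards [ae_restrict_of_ae hae, ae_restrict_mem measurableSet_Ioo] with t h1 h2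
    exact sub_eq_zero.1 (h1 h2)
  have heq := Measure.eqOn_Icc_of_ae_eq volume hT.ne hae' hz continuousOn_const
  intro t ht
  rw [heq ht, heq (left_mem_Icc.2 hT.le)]

/-- A function with weak derivative `g` and vanishing at `0` is the primitive of `g`. -/
lemma ae_eq_primitive [CompleteSpace X] {T : ℝ} (hT : 0 < T) {u g : ℝ → X}
    (hg : IntegrableOn g (Ioo 0 T)) (h : HasWeakDeriv T u g) (h0 : VanishesAtZero T u) :
    u =ᵐ[volume.restrict (Ioo 0 T)] fun t => ∫ s in Ioo 0 t, g s := by
  obtain ⟨w, hw, hwu, hw0⟩ := h0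
  have hg' : IntegrableOn g (Icc 0 T) := (integrableOn_Icc_iff_integrableOn_Ioo).2 hg
  have hP : ContinuousOn (fun t => ∫ s in Ioo 0 t, g s) (Icc 0 T) := by
    have := intervalIntegral.continuousOn_primitive hg'
    simpa only [integral_Ioc_eq_integral_Ioo] using this
  have hwi : IntegrableOn w (Ioo 0 T) := hw.integrableOn_Icc.mono_set Ioo_subset_Icc_self
  have hPi : IntegrableOn (fun t => ∫ s in Ioo 0 t, g s) (Ioo 0 T) :=
    hP.integrableOn_Icc.mono_set Ioo_subset_Icc_self
  have h1 := (h.congr_left hwu.symm).sub (hasWeakDeriv_primitive hg) hwi hg hPi hg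
  simp only [sub_self] at h1
  have h2 := eq_const_of_hasWeakDeriv_zero hT (hw.sub hP) h1
  filter_upwards [hwu, ae_restrict_mem measurableSet_Ioo] with t ht ht'
  have := h2 t (Ioo_subset_Icc_self ht')
  simp only [Pi.sub_apply, hw0, Ioo_self, Measure.restrict_empty, integral_zero_measure,
    sub_zero] at this
  rw [← ht]
  exact sub_eq_zero.1 this

end Pool.Agent.MP_954c34_an
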