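import Pool.Agent.MP_954c34_an.Sharp.Defs

open MeasureTheory Set
open scoped ComplexConjugate

noncomputable section

namespace Pool.Agent.MP_954c34_an

variable {V H : Type} [NormedAddCommGroup V] [NormedSpace ℂ V] [NormedAddCommGroup H]
  [InnerProductSpace ℂ H]

/-- `⟨𝔄(t) u, v⟩ = conj ⟨𝔄(t) v, u⟩` for `t ∈ [0, T]`. -/
def IsHermitianOn (T : ℝ) (𝔄 : ℝ → V →L[ℂ] V →L⋆[ℂ] ℂ) : Prop :=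
  ∀ t ∈ Icc 0 T, ∀ u v, 𝔄 t u v = conj (𝔄 t v u)

/-- Quasi-coercivity and the uniform Kato property `V ⊆ (H, D(A(t)))_{1/2,2} = D((A(t) + κ)^{1/2})`:
`∑ 2 ^ k ‖v - r k‖²_H ≤ C ‖v‖²_V` for the resolvents `r k = (1 + 2 ^ (-k) (A(t) + κ))⁻¹ v`. -/
def IsKato (val : V →L[ℂ] H) (T : ℝ) (𝔄 : ℝ → V →L[ℂ] V →L⋆[ℂ] ℂ) : Prop :=
  ∃ c κ C : ℝ, 0 < c ∧ ∀ᵐ t ∂(volume.restrict (Icc 0 T)),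
    (∀ v, c * ‖v‖ ^ 2 ≤ (𝔄 t v v).re + κ * ‖val v‖ ^ 2) ∧
    ∀ (v : V) (r : ℕ → V),
      (∀ k φ, inner ℂ (val φ) (val (r k)) +
        (1 / 2) ^ k * (𝔄 t (r k) φ + κ * inner ℂ (val φ) (val (r k))) = inner ℂ (val φ) (val v)) →
      ∀ N, ∑ k ∈ Finset.range N, 2 ^ k * ‖val (v - r k)‖ ^ 2 ≤ C * ‖v‖ ^ 2

/-- The operators `𝔄(t)`, `t ∈ [0, T]`, are linear combinations of finitely many fixed ones. -/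
def HasFiniteRank (T : ℝ) (𝔄 : ℝ → V →L[ℂ] V →L⋆[ℂ] ℂ) : Prop :=
  ∃ (m : ℕ) (𝔅 : Fin m → V →L[ℂ] V →L⋆[ℂ] ℂ), ∀ t ∈ Icc 0 T, ∃ z : Fin m → ℂ,
    ∀ u v, 𝔄 t u v = ∑ i, z i * 𝔅 i u v

/-- The time dependence factors through `ℓ²` with modulus `θ`:
`𝔄(t) - 𝔄(0) = ∑ (gᵢ(t) - gᵢ(0)) 𝔅ᵢ` weakly, `∑ ‖𝔅ᵢ v‖²_{V*} ≤ k ‖v‖²` and
`∑ |gᵢ(t) - gᵢ(r)|² ≤ C θ(|t - r|)²`. -/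
def Factors (T : ℝ) (θ : ℝ → ℝ) (𝔄 : ℝ → V →L[ℂ] V →L⋆[ℂ] ℂ) : Prop :=
  ∃ (ι : Type) (𝔅 : ι → V →L[ℂ] V →L⋆[ℂ] ℂ) (g : ℝ → ι → ℝ) (k C : ℝ),
    (∀ (s : Finset ι) v, ∑ i ∈ s, ‖𝔅 i v‖ ^ 2 ≤ k * ‖v‖ ^ 2) ∧
    (∀ s : Finset ι, ∀ t ∈ Icc 0 T, ∀ r ∈ Icc 0 T,
      ∑ i ∈ s, (g t i - g r i) ^ 2 ≤ C * θ |t - r| ^ 2) ∧
    ∀ t ∈ Icc 0 T, ∀ u v,
      HasSum (fun i => ((g t i - g 0 i : ℝ) : ℂ) * 𝔅 i u v) (𝔄 t u v - 𝔄 0 u v)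

end Pool.Agent.MP_954c34_an
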