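import Pool.Agent.MP_954c34_an.Defs

open MeasureTheory Set Filter Topology
open scoped ContDiff

noncomputable section

namespace Pool.Agent.MP_954c34_an

variable {X : Type} [NormedAddCommGroup X] [NormedSpace ℝ X]

lemma eq_zero_of_tsupport_subset {φ : ℝ → ℝ} {T t : ℝ} (h : tsupport φ ⊆ Ioo 0 T)
    (ht : t ∉ Ioo 0 T) : φ t = 0 :=
  image_eq_zero_of_notMem_tsupport (fun h' => ht (h h'))

/-- A `C¹` function has its derivative as weak derivative. -/
lemma hasWeakDeriv_of_hasDerivAt [CompleteSpace X] {T : ℝ} (hT : 0 < T) {u g : ℝ → X}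
    (hu : ∀ t, HasDerivAt u (g t) t) (hg : Continuous g) : HasWeakDeriv T u g := by
  intro φ hφ _ hsupp
  have hφd : ∀ t, HasDerivAt φ (deriv φ t) t := fun t =>
    (hφ.differentiable (by simp) t).hasDerivAt
  have hφc : Continuous (deriv φ) := hφ.continuous_deriv (by simp)
  have h := intervalIntegral.integral_smul_deriv_eq_deriv_smul (a := 0) (b := T)
    (u := φ) (v := u) (u' := deriv φ) (v' := g) (fun t _ => hφd t) (fun t _ => hu t)
    (hφc.intervalIntegrable _ _) (hg.intervalIntegrable _ _)
  rw [eq_zero_of_tsupport_subset hsupp (t := T) (by simp),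
    eq_zero_of_tsupport_subset hsupp (t := 0) (by simp), intervalIntegral.integral_of_le hT.le,
    intervalIntegral.integral_of_le hT.le, integral_Ioc_eq_integral_Ioo,
    integral_Ioc_eq_integral_Ioo] at h
  rw [h]
  simp

lemma MemL2.integrableOn {T : ℝ} {u : ℝ → X} (h : MemL2 T u) : IntegrableOn u (Ioo 0 T) :=
  MemLp.integrable (by norm_num) h

lemma memL2_of_continuous {T : ℝ} {u : ℝ → X} (h : Continuous u) : MemL2 T u := by
  obtain ⟨C, hC⟩ := (isCompact_Icc (a := (0 : ℝ)) (b := T)).exists_bound_of_continuousOn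
    h.continuousOn
  refine MemLp.of_bound h.aestronglyMeasurable C ?_
  filter_upwards [ae_restrict_mem measurableSet_Ioo] with t ht
  exact hC t (Ioo_subset_Icc_self ht)

lemma integrableOn_smul_of_continuous {𝕜 : Type*} [NormedField 𝕜] [NormedSpace 𝕜 X]
    [SecondCountableTopology 𝕜] {T : ℝ} {φ : ℝ → 𝕜} {u : ℝ → X}
    (hφ : Continuous φ) (hu : IntegrableOn u (Ioo 0 T)) :
    IntegrableOn (fun t => φ t • u t) (Ioo 0 T) := by
  obtain ⟨C, hC⟩ := (isCompact_Icc (a := (0 : ℝ)) (b := T)).exists_bound_of_continuousOn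
    hφ.continuousOn
  refine Integrable.mono' (hu.norm.const_mul C) (hφ.aestronglyMeasurable.smul hu.1) ?_
  filter_upwards [ae_restrict_mem measurableSet_Ioo] with t ht
  rw [norm_smul]
  exact mul_le_mul_of_nonneg_right (hC t (Ioo_subset_Icc_self ht)) (norm_nonneg _)

lemma HasWeakDeriv.sub {T : ℝ} {u g v h : ℝ → X} (h1 : HasWeakDeriv T u g)
    (h2 : HasWeakDeriv T v h) (hu : IntegrableOn u (Ioo 0 T)) (hg : IntegrableOn g (Ioo 0 T))
    (hv : IntegrableOn v (Ioo 0 T)) (hh : IntegrableOn h (Ioo 0 T)) :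
    HasWeakDeriv T (fun t => u t - v t) (fun t => g t - h t) := by
  intro φ hφ hc hsupp
  have hφc : Continuous (deriv φ) := hφ.continuous_deriv (by simp)
  simp only [smul_sub]
  rw [integral_sub (integrableOn_smul_of_continuous hφc hu)
      (integrableOn_smul_of_continuous hφc hv),
    integral_sub (integrableOn_smul_of_continuous hφ.continuous hg)
      (integrableOn_smul_of_continuous hφ.continuous hh), h1 φ hφ hc hsupp, h2 φ hφ hc hsupp]
  abel

lemma HasWeakDeriv.congr_left {T : ℝ} {u v g : ℝ → X} (h1 : HasWeakDeriv T u g)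
    (h : u =ᵐ[volume.restrict (Ioo 0 T)] v) : HasWeakDeriv T v g := by
  intro φ hφ hc hsupp
  rw [← h1 φ hφ hc hsupp]
  refine integral_congr_ae ?_
  filter_upwards [h] with t ht
  rw [ht]

/-- The primitive of an integrable function has it as weak derivative. -/
lemma hasWeakDeriv_primitive [CompleteSpace X] {T : ℝ} {g : ℝ → X}
    (hg : IntegrableOn g (Ioo 0 T)) :
    HasWeakDeriv T (fun t => ∫ s in Ioo 0 t, g s) g := by
  intro φ hφ _ hsupp
  have hφd : ∀ t, HasDerivAt φ (deriv φ t) t := fun t =>
    (hφ.differentiable (by simp) t).hasDerivAt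
  have hφc : Continuous (deriv φ) := hφ.continuous_deriv (by simp)
  set ν : Measure ℝ := volume.restrict (Ioo 0 T) with hν
  set F : ℝ → ℝ → X := fun t s => ({p : ℝ × ℝ | p.2 < p.1}.indicator
    (fun p => deriv φ p.1) (t, s)) • g s with hF
  have hmeas : MeasurableSet {p : ℝ × ℝ | p.2 < p.1} := measurableSet_lt measurable_snd measurable_fst
  obtain ⟨C, hC⟩ := (isCompact_Icc (a := (0 : ℝ)) (b := T)).exists_bound_of_continuousOn
    hφc.continuousOn
  have hint : Integrable (Function.uncurry F) (ν.prod ν) := by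
    have h1 : Integrable (fun p : ℝ × ℝ => deriv φ p.1 • g p.2) (ν.prod ν) :=
      Integrable.smul_prod (f := deriv φ) (g := g)
        (hφc.continuousOn.integrableOn_Icc.mono_set Ioo_subset_Icc_self) hg
    refine (h1.indicator hmeas).congr (Eventually.of_forall fun p => ?_)
    by_cases hp : p ∈ {p : ℝ × ℝ | p.2 < p.1}
    · simp only [hF, Function.uncurry, indicator_of_mem hp]
    · simp only [hF, Function.uncurry, indicator_of_notMem hp, zero_smul]
  have hswap := integral_integral_swap hint
  have hL : ∫ t, ∫ s, F t s ∂ν ∂ν = ∫ t in Ioo 0 T, deriv φ t • ∫ s in Ioo 0 t, g s := by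
    refine setIntegral_congr_fun measurableSet_Ioo fun t ht => ?_
    have : (fun s => F t s) = fun s => deriv φ t • (Iio t).indicator g s := by
      funext s
      by_cases hs : s < t
      · simp [hF, indicator_of_mem, hs]
      · simp [hF, indicator_of_notMem, hs]
    simp only [this]
    rw [integral_smul, integral_indicator measurableSet_Iio, hν,
      Measure.restrict_restrict measurableSet_Iio]
    congr 3
    ext s
    simp only [mem_inter_iff, mem_Iio, mem_Ioo]
    constructor
    · rintro ⟨h1, h2, _⟩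
      exact ⟨h2, h1⟩
    · rintro ⟨h1, h2⟩
      exact ⟨h2, h1, h2.trans ht.2⟩
  have hR : ∫ s, ∫ t, F t s ∂ν ∂ν = ∫ s in Ioo 0 T, -(φ s • g s) := by
    refine setIntegral_congr_fun measurableSet_Ioo fun s hs => ?_
    have : (fun t => F t s) = fun t => ((Ioi s).indicator (deriv φ) t) • g s := by
      funext t
      by_cases ht : s < t
      · simp [hF, indicator_of_mem, ht]
      · simp [hF, indicator_of_notMem, ht]
    simp only [this]
    rw [integral_smul_const, integral_indicator measurableSet_Ioi, hν,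
      Measure.restrict_restrict measurableSet_Ioi]
    have e : Ioi s ∩ Ioo 0 T = Ioo s T := by
      ext t
      simp only [mem_inter_iff, mem_Ioi, mem_Ioo]
      constructor
      · rintro ⟨h1, _, h2⟩
        exact ⟨h1, h2⟩
      · rintro ⟨h1, h2⟩
        exact ⟨h1, hs.1.trans h1, h2⟩
    rw [e, ← integral_Ioc_eq_integral_Ioo, ← intervalIntegral.integral_of_le hs.2.le,
      intervalIntegral.integral_eq_sub_of_hasDerivAt (fun t _ => hφd t)
        (hφc.intervalIntegrable _ _), eq_zero_of_tsupport_subset hsupp (t := T) (by simp)]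
    simp
  rw [← hL, hswap, hR, integral_neg]

end Pool.Agent.MP_954c34_an
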